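import Mathlib

namespace Pool.Agent.Helper32.Nodal

set_option linter.unusedSectionVars false

/-- A chain in a partial order which is well-founded in both directions is finite. -/
lemma finite_of_chain {α : Type*} [PartialOrder α] [hl : WellFoundedLT α] [hg : WellFoundedGT α]
    (T : Set α) (hT : ∀ a ∈ T, ∀ b ∈ T, a ≤ b ∨ b ≤ a) : T.Finite := by
  classical
  let _ : LinearOrder T :=
    { (inferInstance : PartialOrder T) with
      le_total := fun a b => hT a a.2 b b.2
      toDecidableLE := Classical.decRel _ }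
  have h1 : WellFoundedLT T := ⟨InvImage.wf (fun a : T => (a : α)) hl.wf⟩
  have h2 : WellFoundedGT T := ⟨InvImage.wf (fun a : T => (a : α)) hg.wf⟩
  have : Finite T := Finite.of_wellFoundedLT_wellFoundedGT T
  exact Set.toFinite T

section

variable {κ M : Type*} [Field κ] [AddCommGroup M] [Module κ M]

/-- Extension of functionals: if `ker f ≤ ker g` then `g` factors through `f`. -/
lemma exists_factor {X : Type*} [AddCommGroup X] [Module κ X] (f : X →ₗ[κ] M) (g : X →ₗ[κ] κ)
    (h : ∀ z, f z = 0 → g z = 0) : ∃ ψ : M →ₗ[κ] κ, ∀ z, ψ (f z) = g z := by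
  have h1 : g ∈ (LinearMap.ker f).dualAnnihilator := by
    rw [Submodule.mem_dualAnnihilator]
    intro w hw
    exact h w hw
  rw [← LinearMap.range_dualMap_eq_dualAnnihilator_ker] at h1
  obtain ⟨ψ, hψ⟩ := h1
  exact ⟨ψ, fun z => by rw [← hψ]; rfl⟩

end

variable {κ E M : Type*} [Field κ] [Ring E] [Algebra κ E] [AddCommGroup M] [Module κ M]
  [Module E M] [IsScalarTower κ E M]

/-- The action of a word in the letters `x` (`true`) and `y⁻¹` (`false`). -/
def act (x y : M →ₗ[E] M) : List Bool → Submodule E M → Submodule E M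
  | [], U => U
  | true :: w, U => (act x y w U).map x
  | false :: w, U => (act x y w U).comap y

lemma act_mono (x y : M →ₗ[E] M) (w : List Bool) {U V : Submodule E M} (h : U ≤ V) :
    act x y w U ≤ act x y w V := by
  induction w with
  | nil => exact h
  | cons c w ih =>
    cases c with
    | true => exact Submodule.map_mono ih
    | false => exact Submodule.comap_mono ih

/-- The two functors attached to a word. -/
def UU (x y : M →ₗ[E] M) (w : List Bool) : Submodule E M := act x y w (LinearMap.ker y)
def VV (x y : M →ₗ[E] M) (w : List Bool) : Submodule E M := act x y w (LinearMap.range x)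

lemma range_le_ker {x y : M →ₗ[E] M} (hyx : ∀ m, y (x m) = 0) :
    LinearMap.range x ≤ LinearMap.ker y := by
  rintro _ ⟨m, rfl⟩
  exact hyx m

lemma map_le_comap {x y : M →ₗ[E] M} (hyx : ∀ m, y (x m) = 0) (U V : Submodule E M) :
    U.map x ≤ V.comap y := by
  rintro _ ⟨m, -, rfl⟩
  rw [Submodule.mem_comap, hyx]
  exact V.zero_mem

lemma VV_le_UU {x y : M →ₗ[E] M} (hyx : ∀ m, y (x m) = 0) (w : List Bool) :
    VV x y w ≤ UU x y w := act_mono x y w (range_le_ker hyx)

/-- The intervals attached to distinct words do not overlap. -/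
lemma UV_disj {x y : M →ₗ[E] M} (hyx : ∀ m, y (x m) = 0) :
    ∀ w w' : List Bool, w ≠ w' → UU x y w ≤ VV x y w' ∨ UU x y w' ≤ VV x y w := by
  intro w
  induction w with
  | nil =>
    intro w' h
    cases w' with
    | nil => exact absurd rfl h
    | cons c w' =>
      cases c with
      | true => exact Or.inr LinearMap.map_le_range
      | false => exact Or.inl (LinearMap.ker_le_comap y)
  | cons c w ih =>
    intro w' h
    cases w' with
    | nil =>
      cases c with
      | true => exact Or.inl LinearMap.map_le_range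
      | false => exact Or.inr (LinearMap.ker_le_comap y)
    | cons c' w' =>
      cases c with
      | true =>
        cases c' with
        | true =>
          rcases ih w' (fun h' => h (by rw [h'])) with h1 | h1
          · exact Or.inl (Submodule.map_mono h1)
          · exact Or.inr (Submodule.map_mono h1)
        | false => exact Or.inl (map_le_comap hyx _ _)
      | false =>
        cases c' with
        | true => exact Or.inr (map_le_comap hyx _ _)
        | false =>
          rcases ih w' (fun h' => h (by rw [h'])) with h1 | h1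
          · exact Or.inl (Submodule.comap_mono h1)
          · exact Or.inr (Submodule.comap_mono h1)

/-- Only finitely many words have a nonzero interval. -/
lemma finite_jumps {x y : M →ₗ[E] M} (hyx : ∀ m, y (x m) = 0) [IsArtinian E M]
    [IsNoetherian E M] : {w | VV x y w ≠ UU x y w}.Finite := by
  have hlt : ∀ w w', VV x y w ≠ UU x y w → VV x y w' ≠ UU x y w' → w ≠ w' →
      UU x y w < UU x y w' ∨ UU x y w' < UU x y w := by
    intro w w' h h' hne
    rcases UV_disj hyx w w' hne with h1 | h1
    · left; exact lt_of_le_of_lt h1 (lt_of_le_of_ne (VV_le_UU hyx w') h')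
    · right; exact lt_of_le_of_lt h1 (lt_of_le_of_ne (VV_le_UU hyx w) h)
  apply Set.Finite.of_finite_image (f := UU x y)
  · apply finite_of_chain
    rintro _ ⟨w, hw, rfl⟩ _ ⟨w', hw', rfl⟩
    by_cases h : w = w'
    · subst h; exact Or.inl le_rfl
    · rcases hlt w w' hw hw' h with h1 | h1
      · exact Or.inl h1.le
      · exact Or.inr h1.le
  · intro w hw w' hw' he
    by_contra hne
    rcases hlt w w' hw hw' hne with h1 | h1
    · exact h1.ne he
    · exact h1.ne he.symm

/-- The thread lemma. -/
lemma thread {x y : M →ₗ[E] M} (hyx : ∀ m, y (x m) = 0) (hxy : ∀ m, x (y m) = 0) :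
    ∀ w : List Bool, ∀ m ∈ UU x y w, ∀ φ : M →ₗ[κ] κ, (∀ v ∈ VV x y w, φ v = 0) →
    ∃ e : M →ₗ[κ] M, (∃ F : Submodule κ M, Module.Finite κ F ∧ ∀ z, e z ∈ F) ∧
      (∀ z, x (e z) = e (x z) + φ z • x m) ∧
      (∀ z, e (y z) = y (e z) + φ (y z) • m) ∧
      (∀ w' : List Bool, w.length < w'.length → ∀ u ∈ UU x y w', e u ∈ VV x y w') ∧
      (∃ e' : M →ₗ[κ] M, (∀ z, e z = φ z • m + e' z) ∧ ∀ u ∈ UU x y w, e' u ∈ VV x y w) := by
  intro w
  induction w with
  | nil =>
    intro m hm φ hφ
    have hm' : y m = 0 := hm
    refine ⟨φ.smulRight m, ⟨Submodule.span κ {m}, inferInstance, ?_⟩, ?_, ?_, ?_, ⟨0, ?_, ?_⟩⟩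
    · intro z
      exact Submodule.smul_mem _ _ (Submodule.mem_span_singleton_self m)
    · intro z
      have : φ (x z) = 0 := hφ _ ⟨z, rfl⟩
      simp [this]
    · intro z
      simp [hm']
    · intro w' hw' u hu
      rcases UV_disj hyx w' [] (by rintro rfl; simp at hw') with h1 | h1
      · have : φ u = 0 := hφ _ (h1 hu)
        simp [this]
      · have h2 : m ∈ VV x y w' := h1 hm
        have h3 := ((VV x y w').restrictScalars κ).smul_mem (φ u) h2
        simpa using h3
    · intro z; simp
    · intro u hu; simp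
  | cons c w ih =>
    intro m hm φ hφ
    -- the next element and functional
    obtain ⟨m1, hm1, φ1, hφ1, hA, hB⟩ : ∃ m1 ∈ UU x y w, ∃ φ1 : M →ₗ[κ] κ,
        (∀ v ∈ VV x y w, φ1 v = 0) ∧ (∀ z, φ (x z) • m = φ1 z • x m1) ∧
        (∀ z, φ z • y m = φ1 (y z) • m1) := by
      cases c with
      | true =>
        obtain ⟨m1, hm1, rfl⟩ := hm
        refine ⟨m1, hm1, { toFun := fun z => φ (x z), map_add' := ?_, map_smul' := ?_ }, ?_, ?_, ?_⟩
        · intro a b; simp
        · intro a b
          have : x (a • b) = a • x b := (x.restrictScalars κ).map_smul a b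
          rw [this]; simp
        · intro v hv
          exact hφ _ ⟨v, hv, rfl⟩
        · intro z; rfl
        · intro z
          simp [hyx, hxy]
      | false =>
        have hker : ∀ z, y z = 0 → φ z = 0 := by
          intro z hz
          apply hφ
          change y z ∈ VV x y w
          rw [hz]
          exact Submodule.zero_mem _
        -- functional on `M × VV w`
        obtain ⟨ψ, hψ⟩ := exists_factor (κ := κ) (M := M)
          (X := M × ((VV x y w).restrictScalars κ))
          (((y.restrictScalars κ).comp (LinearMap.fst κ M _)) +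
            (((VV x y w).restrictScalars κ).subtype.comp (LinearMap.snd κ M _)))
          (φ.comp (LinearMap.fst κ M _)) (by
            rintro ⟨z, v⟩ hz
            simp only [LinearMap.add_apply, LinearMap.comp_apply, LinearMap.fst_apply,
              LinearMap.snd_apply, Submodule.subtype_apply] at hz ⊢
            apply hφ
            change y z ∈ VV x y w
            have h1 : y z = - (v : M) := by
              rw [eq_neg_iff_add_eq_zero]; exact hz
            rw [h1]
            exact (VV x y w).neg_mem v.2)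
        refine ⟨y m, hm, ψ, ?_, ?_, ?_⟩
        · intro v hv
          have := hψ (0, ⟨v, hv⟩)
          simpa using this
        · intro z
          have : φ (x z) = 0 := hker _ (hyx z)
          simp [this, hxy]
        · intro z
          have := hψ (z, 0)
          have h2 : ψ (y z) = φ z := by simpa using this
          rw [h2]
    obtain ⟨e1, ⟨F, hF, hFe⟩, h1, h2, h3, -⟩ := ih m1 hm1 φ1 hφ1
    have hmy : ∀ z, φ (x z) • m + e1 (x z) = x (e1 z) := by
      intro z
      rw [h1, hA]; abel
    refine ⟨φ.smulRight m + e1, ⟨Submodule.span κ {m} ⊔ F, inferInstance, ?_⟩, ?_, ?_, ?_,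
       ⟨e1, fun z => rfl, ?_⟩⟩
    · intro z
      exact Submodule.add_mem_sup
        (Submodule.smul_mem _ _ (Submodule.mem_span_singleton_self m)) (hFe z)
    · intro z
      simp only [LinearMap.add_apply, LinearMap.smulRight_apply, map_add]
      have : x (φ z • m) = φ z • x m := (x.restrictScalars κ).map_smul _ _
      rw [this, hmy z]; abel
    · intro z
      simp only [LinearMap.add_apply, LinearMap.smulRight_apply, map_add]
      have : y (φ z • m) = φ z • y m := (y.restrictScalars κ).map_smul _ _
      rw [this, h2, hB]; abel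
    · intro w' hw' u hu
      simp only [LinearMap.add_apply, LinearMap.smulRight_apply]
      apply (VV x y w').add_mem
      · rcases UV_disj hyx w' (c :: w) (by rintro rfl; simp at hw') with h4 | h4
        · have : φ u = 0 := hφ _ (h4 hu)
          rw [this, zero_smul]
          exact Submodule.zero_mem _
        · exact ((VV x y w').restrictScalars κ).smul_mem (φ u) (h4 hm)
      · exact h3 w' (by simp at hw'; omega) u hu
    · intro u hu
      exact h3 (c :: w) (by simp) u hu

/-- Fitting decomposition for endomorphisms of finite rank. -/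
lemma fitting_finite_rank {κ M : Type*} [Field κ] [AddCommGroup M] [Module κ M]
    (e : M →ₗ[κ] M) (F : Submodule κ M) [Module.Finite κ F] (hF : ∀ z, e z ∈ F) :
    ∃ n : ℕ, 0 < n ∧ IsCompl (LinearMap.ker (e ^ n)) (LinearMap.range (e ^ n)) := by
  have hle : ∀ n, LinearMap.range (e ^ (n + 1)) ≤ F := by
    rintro n _ ⟨z, rfl⟩
    rw [pow_succ', Module.End.mul_apply]
    exact hF _
  have hanti : ∀ n m, n ≤ m → LinearMap.range (e ^ m) ≤ LinearMap.range (e ^ n) := by
    rintro n m hnm _ ⟨z, rfl⟩
    obtain ⟨d, rfl⟩ := Nat.exists_eq_add_of_le hnm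
    rw [pow_add, Module.End.mul_apply]
    exact ⟨_, rfl⟩
  obtain ⟨n, hn⟩ := IsArtinian.monotone_stabilizes (R := κ) (M := F)
    { toFun := fun n => OrderDual.toDual ((LinearMap.range (e ^ (n + 1))).comap F.subtype)
      monotone' := by
        intro a b hab
        change (LinearMap.range (e ^ (b + 1))).comap F.subtype
          ≤ (LinearMap.range (e ^ (a + 1))).comap F.subtype
        exact Submodule.comap_mono (hanti _ _ (by omega)) }
  have hstab : LinearMap.range (e ^ (n + 1)) ≤ LinearMap.range (e ^ ((n + 1) + (n + 1))) := by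
    intro z hz
    have h1 : (LinearMap.range (e ^ (n + 1))).comap F.subtype
        = (LinearMap.range (e ^ ((2 * n + 1) + 1))).comap F.subtype := hn (2 * n + 1) (by omega)
    have h2 : (⟨z, hle n hz⟩ : F) ∈ (LinearMap.range (e ^ (n + 1))).comap F.subtype := hz
    rw [h1] at h2
    have h3 : z ∈ LinearMap.range (e ^ ((2 * n + 1) + 1)) := h2
    rwa [show (2 * n + 1) + 1 = (n + 1) + (n + 1) by ring] at h3
  refine ⟨n + 1, Nat.succ_pos n, ?_, ?_⟩
  · set N := n + 1
    set R := LinearMap.range (e ^ N)
    have : Module.Finite κ R := Submodule.finiteDimensional_of_le (hle n)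
    have hmaps : ∀ z ∈ R, (e ^ N) z ∈ R := fun z _ => ⟨z, rfl⟩
    have hsurj : Function.Surjective ((e ^ N).restrict hmaps) := by
      rintro ⟨r, hr⟩
      obtain ⟨w, hw⟩ := hstab hr
      refine ⟨⟨(e ^ N) w, ⟨w, rfl⟩⟩, ?_⟩
      apply Subtype.ext
      rw [LinearMap.coe_restrict_apply, ← Module.End.mul_apply, ← pow_add]
      exact hw
    have hinj := LinearMap.injective_iff_surjective.2 hsurj
    rw [Submodule.disjoint_def]
    intro z hz hzR
    have h1 : (e ^ N).restrict hmaps ⟨z, hzR⟩ = (e ^ N).restrict hmaps 0 := by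
      rw [map_zero]
      apply Subtype.ext
      rw [LinearMap.coe_restrict_apply]
      exact hz
    exact congrArg Subtype.val (hinj h1)
  · rw [codisjoint_iff, eq_top_iff]
    intro z _
    obtain ⟨w, hw⟩ := hstab (⟨z, rfl⟩ : (e ^ (n + 1)) z ∈ LinearMap.range (e ^ (n + 1)))
    have h1 : z = (z - (e ^ (n + 1)) w) + (e ^ (n + 1)) w := by abel
    rw [h1]
    apply Submodule.add_mem_sup
    · rw [LinearMap.mem_ker, map_sub, ← Module.End.mul_apply, ← pow_add, hw, sub_self]
    · exact ⟨w, rfl⟩

/-- If `M` is indecomposable of infinite dimension then the sequence is exact. -/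
theorem ker_le_range {x y : M →ₗ[E] M} (hyx : ∀ m, y (x m) = 0) (hxy : ∀ m, x (y m) = 0)
    [IsArtinian E M] [IsNoetherian E M]
    (hind : ∀ P Q : Submodule κ M, IsCompl P Q → (∀ m ∈ P, x m ∈ P) → (∀ m ∈ P, y m ∈ P) →
      (∀ m ∈ Q, x m ∈ Q) → (∀ m ∈ Q, y m ∈ Q) → P = ⊥ ∨ Q = ⊥)
    (hinf : ¬ Module.Finite κ M) : LinearMap.ker y ≤ LinearMap.range x := by
  classical
  by_contra hcon
  have hfin := finite_jumps hyx (E := E) (x := x)
  have hnil : ([] : List Bool) ∈ {w | VV x y w ≠ UU x y w} := by
    intro h
    exact hcon (le_of_eq (h.symm : LinearMap.ker y = LinearMap.range x))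
  obtain ⟨w, hw, hmax⟩ := Finset.exists_max_image hfin.toFinset List.length
    ⟨[], hfin.mem_toFinset.2 hnil⟩
  have hwj : VV x y w ≠ UU x y w := hfin.mem_toFinset.1 hw
  have hlong : ∀ c, VV x y (c :: w) = UU x y (c :: w) := by
    intro c
    by_contra h
    have := hmax (c :: w) (hfin.mem_toFinset.2 h)
    simp at this
  obtain ⟨m0, hm0, hm0V⟩ := SetLike.exists_of_lt (lt_of_le_of_ne (VV_le_UU hyx w) hwj)
  -- modify `m0` so that `x m0 = 0`
  obtain ⟨v, hv, hxv⟩ : x m0 ∈ VV x y (true :: w) := by
    rw [hlong true]; exact ⟨m0, hm0, rfl⟩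
  set m := m0 - v with hm
  have hmU : m ∈ UU x y w := (UU x y w).sub_mem hm0 (VV_le_UU hyx w hv)
  have hmV : m ∉ VV x y w := by
    intro h
    apply hm0V
    have : m0 = m + v := by rw [hm]; abel
    rw [this]
    exact (VV x y w).add_mem h hv
  have hxm : x m = 0 := by rw [hm, map_sub, hxv, sub_self]
  -- `m` is not in `VV w + range y`
  have hmR : m ∉ ((VV x y w ⊔ LinearMap.range y).restrictScalars κ) := by
    intro h
    obtain ⟨a, ha, _, ⟨b, rfl⟩, hab⟩ := Submodule.mem_sup.1
      ((Submodule.restrictScalars_mem κ _ _).1 h)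
    apply hmV
    have h1 : b ∈ UU x y (false :: w) := by
      change y b ∈ UU x y w
      have : y b = m - a := by rw [← hab]; abel
      rw [this]
      exact (UU x y w).sub_mem hmU (VV_le_UU hyx w ha)
    rw [← hlong false] at h1
    rw [← hab]
    exact (VV x y w).add_mem ha h1
  obtain ⟨φ', hφ', hker⟩ := Submodule.exists_le_ker_of_notMem hmR
  set φ : M →ₗ[κ] κ := (φ' m)⁻¹ • φ' with hφdef
  have hφm : φ m = 1 := by
    rw [hφdef, LinearMap.smul_apply, smul_eq_mul, inv_mul_cancel₀ hφ']
  have hφ0 : ∀ z ∈ (VV x y w ⊔ LinearMap.range y : Submodule E M), φ z = 0 := by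
    intro z hz
    have : φ' z = 0 := hker hz
    rw [hφdef, LinearMap.smul_apply, this, smul_zero]
  have hφV : ∀ z ∈ VV x y w, φ z = 0 := fun z hz => hφ0 z (Submodule.mem_sup_left hz)
  have hφy : ∀ z, φ (y z) = 0 := fun z => hφ0 _ (Submodule.mem_sup_right ⟨z, rfl⟩)
  obtain ⟨e, ⟨F, hFf, hF⟩, hA, hB, -, e', he', he'U⟩ := thread hyx hxy w m hmU φ hφV
  have hex : ∀ z, x (e z) = e (x z) := by intro z; rw [hA, hxm, smul_zero, add_zero]
  have hey : ∀ z, y (e z) = e (y z) := by intro z; rw [hB, hφy, zero_smul, add_zero]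
  obtain ⟨n, hn, hcompl⟩ := fitting_finite_rank e F hF
  have hex' : ∀ k z, x ((e ^ k) z) = (e ^ k) (x z) := by
    intro k
    induction k with
    | zero => intro z; simp
    | succ k ih => intro z; rw [pow_succ, Module.End.mul_apply, Module.End.mul_apply, ih, hex]
  have hey' : ∀ k z, y ((e ^ k) z) = (e ^ k) (y z) := by
    intro k
    induction k with
    | zero => intro z; simp
    | succ k ih => intro z; rw [pow_succ, Module.End.mul_apply, Module.End.mul_apply, ih, hey]
  rcases hind _ _ hcompl
    (by intro z hz; rw [LinearMap.mem_ker] at *; rw [← hex', hz, map_zero])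
    (by intro z hz; rw [LinearMap.mem_ker] at *; rw [← hey', hz, map_zero])
    (by rintro _ ⟨z, rfl⟩; rw [hex']; exact ⟨_, rfl⟩)
    (by rintro _ ⟨z, rfl⟩; rw [hey']; exact ⟨_, rfl⟩) with h | h
  · -- the kernel is trivial, so `M` embeds in `F`
    apply hinf
    have hinj : Function.Injective (e ^ n) := LinearMap.ker_eq_bot.1 h
    have hinj1 : Function.Injective e := by
      intro a b hab
      apply hinj
      obtain ⟨k, rfl⟩ : ∃ k, n = k + 1 := ⟨n - 1, by omega⟩
      rw [pow_succ, Module.End.mul_apply, Module.End.mul_apply, hab]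
    exact Module.Finite.of_injective (e.codRestrict F hF)
      (fun a b hab => hinj1 (congrArg Subtype.val hab))
  · -- `e` is nilpotent, contradiction
    have hstep : ∀ k, (e ^ k) m - m ∈ VV x y w := by
      intro k
      induction k with
      | zero => simp
      | succ k ih =>
        rw [pow_succ', Module.End.mul_apply]
        have h1 : e ((e ^ k) m) - m = e ((e ^ k) m - m) + (e m - m) := by
          rw [map_sub e ((e ^ k) m) m, sub_add_sub_cancel]
        rw [h1]
        apply (VV x y w).add_mem
        · rw [he', hφV _ ih, zero_smul, zero_add]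
          exact he'U _ (VV_le_UU hyx w ih)
        · rw [he', hφm, one_smul, add_sub_cancel_left]
          exact he'U _ hmU
    have h1 := hstep n
    have h2 : (e ^ n) m = 0 := by
      have : (e ^ n) m ∈ LinearMap.range (e ^ n) := ⟨m, rfl⟩
      rwa [h, Submodule.mem_bot] at this
    rw [h2, zero_sub] at h1
    exact hmV (by simpa using (VV x y w).neg_mem h1)

end Pool.Agent.Helper32.Nodal
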