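import Mathlib
import Pool.Agent.Helper32.Nodal.Strings

namespace Pool.Agent.Helper32.Nodal

set_option linter.unusedSectionVars false

variable {E M : Type*} [Ring E] [AddCommGroup M] [Module E M]

/-- The canonical filtration: the smallest set of submodules containing `⊥, ⊤` and closed under
`x` and `y⁻¹`. -/
inductive CC (x y : M →ₗ[E] M) : Submodule E M → Prop
  | bot : CC x y ⊥
  | top : CC x y ⊤
  | mapx {U : Submodule E M} : CC x y U → CC x y (U.map x)
  | comapy {U : Submodule E M} : CC x y U → CC x y (U.comap y)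

lemma map_le_comap' {x y : M →ₗ[E] M} (hyx : ∀ m, y (x m) = 0) (U V : Submodule E M) :
    U.map x ≤ V.comap y := by
  rintro _ ⟨m, -, rfl⟩
  rw [Submodule.mem_comap, hyx]
  exact V.zero_mem

lemma CC.total {x y : M →ₗ[E] M} (hyx : ∀ m, y (x m) = 0) {U : Submodule E M} (hU : CC x y U) :
    ∀ V, CC x y V → U ≤ V ∨ V ≤ U := by
  induction hU with
  | bot => intro V _; exact Or.inl bot_le
  | top => intro V _; exact Or.inr le_top
  | @mapx U hU ih =>
    intro V hV
    cases hV with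
    | bot => exact Or.inr bot_le
    | top => exact Or.inl le_top
    | mapx hV =>
      rcases ih _ hV with h | h
      · exact Or.inl (Submodule.map_mono h)
      · exact Or.inr (Submodule.map_mono h)
    | comapy hV => exact Or.inl (map_le_comap' hyx _ _)
  | @comapy U hU ih =>
    intro V hV
    cases hV with
    | bot => exact Or.inr bot_le
    | top => exact Or.inl le_top
    | mapx hV => exact Or.inr (map_le_comap' hyx _ _)
    | comapy hV =>
      rcases ih _ hV with h | h
      · exact Or.inl (Submodule.comap_mono h)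
      · exact Or.inr (Submodule.comap_mono h)

lemma CC.lt_of_not_le {x y : M →ₗ[E] M} (hyx : ∀ m, y (x m) = 0) {U V : Submodule E M}
    (hU : CC x y U) (hV : CC x y V) (h : ¬ U ≤ V) : V < U := by
  rcases hU.total hyx V hV with h1 | h1
  · exact absurd h1 h
  · exact lt_of_le_not_ge h1 h

/-- Data of an exact pair. -/
structure Exact (x y : M →ₗ[E] M) : Prop where
  yx : ∀ m, y (x m) = 0
  xy : ∀ m, x (y m) = 0
  kery : ∀ m, y m = 0 → ∃ z, x z = m
  kerx : ∀ m, x m = 0 → ∃ z, y z = m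

variable (x y : M →ₗ[E] M)

/-- The nonzero members of the chain. -/
def J : Type _ := {U : Submodule E M // CC x y U ∧ U ≠ ⊥}

variable {x y}

lemma CC_finite (hyx : ∀ m, y (x m) = 0) [IsArtinian E M] [IsNoetherian E M] :
    {U | CC x y U}.Finite :=
  finite_of_chain _ (fun _ ha _ hb => CC.total hyx ha _ hb)

lemma J_finite (hyx : ∀ m, y (x m) = 0) [IsArtinian E M] [IsNoetherian E M] :
    Finite (J x y) := by
  have := (CC_finite (x := x) hyx).subset (fun U (h : CC x y U ∧ U ≠ ⊥) => h.1)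
  exact Set.Finite.to_subtype this

lemma exists_pred (hyx : ∀ m, y (x m) = 0) [IsArtinian E M] [IsNoetherian E M] (U : J x y) :
    ∃ V, CC x y V ∧ V < U.1 ∧ ∀ W, CC x y W → W < U.1 → W ≤ V := by
  have hfin : {W | CC x y W ∧ W < U.1}.Finite :=
    (CC_finite (x := x) hyx).subset (fun W h => h.1)
  obtain ⟨V, hV⟩ := hfin.exists_maximal ⟨⊥, CC.bot, bot_lt_iff_ne_bot.2 U.2.2⟩
  refine ⟨V, hV.prop.1, hV.prop.2, ?_⟩
  intro W hW hWU
  rcases hW.total hyx V hV.prop.1 with h | h
  · exact h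
  · exact hV.le_of_ge ⟨hW, hWU⟩ h

/-- The predecessor in the chain. -/
noncomputable def pm (hyx : ∀ m, y (x m) = 0) [IsArtinian E M] [IsNoetherian E M] (U : J x y) :
    Submodule E M := (exists_pred hyx U).choose

section

variable [IsArtinian E M] [IsNoetherian E M]

lemma pm_CC (hyx : ∀ m, y (x m) = 0) (U : J x y) : CC x y (pm hyx U) :=
  (exists_pred hyx U).choose_spec.1

lemma pm_lt (hyx : ∀ m, y (x m) = 0) (U : J x y) : pm hyx U < U.1 :=
  (exists_pred hyx U).choose_spec.2.1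

lemma le_pm (hyx : ∀ m, y (x m) = 0) (U : J x y) {W : Submodule E M} (hW : CC x y W)
    (h : W < U.1) : W ≤ pm hyx U :=
  (exists_pred hyx U).choose_spec.2.2 W hW h

lemma pm_eq (hyx : ∀ m, y (x m) = 0) (U : J x y) {V : Submodule E M} (hV : CC x y V)
    (hVU : V < U.1) (h : ∀ W, CC x y W → W < U.1 → W ≤ V) : pm hyx U = V :=
  le_antisymm (h _ (pm_CC hyx U) (pm_lt hyx U)) (le_pm hyx U hV hVU)

/-- (P1) -/
lemma pm_map (hE : Exact x y) (U : J x y) (h : (pm hE.yx U).map x ≠ U.1.map x) :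
    ∃ W : J x y, W.1 = U.1.map x ∧ pm hE.yx W = (pm hE.yx U).map x := by
  have hlt : (pm hE.yx U).map x < U.1.map x :=
    lt_of_le_of_ne (Submodule.map_mono (pm_lt hE.yx U).le) h
  refine ⟨⟨U.1.map x, CC.mapx U.2.1, (bot_le.trans_lt hlt).ne'⟩, rfl, ?_⟩
  apply pm_eq _ _ (CC.mapx (pm_CC hE.yx U)) hlt
  intro V hV hVW
  cases hV with
  | bot => exact bot_le
  | top => exact absurd hVW (not_lt_of_ge le_top)
  | @mapx V1 hV1 =>
    apply Submodule.map_mono
    apply le_pm hE.yx U hV1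
    apply CC.lt_of_not_le hE.yx U.2.1 hV1
    intro h2
    exact absurd hVW (not_lt_of_ge (Submodule.map_mono h2))
  | @comapy V1 hV1 => exact absurd hVW (not_lt_of_ge (map_le_comap' hE.yx _ _))

/-- (P2) -/
lemma pm_comap (hE : Exact x y) (U : J x y) (h : (pm hE.yx U).comap y ≠ U.1.comap y) :
    ∃ W : J x y, W.1 = U.1.comap y ∧ pm hE.yx W = (pm hE.yx U).comap y := by
  have hlt : (pm hE.yx U).comap y < U.1.comap y :=
    lt_of_le_of_ne (Submodule.comap_mono (pm_lt hE.yx U).le) h
  refine ⟨⟨U.1.comap y, CC.comapy U.2.1, (bot_le.trans_lt hlt).ne'⟩, rfl, ?_⟩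
  apply pm_eq _ _ (CC.comapy (pm_CC hE.yx U)) hlt
  intro V hV hVW
  cases hV with
  | bot => exact bot_le
  | top => exact absurd hVW (not_lt_of_ge le_top)
  | @mapx V1 hV1 => exact map_le_comap' hE.yx _ _
  | @comapy V1 hV1 =>
    apply Submodule.comap_mono
    apply le_pm hE.yx U hV1
    apply CC.lt_of_not_le hE.yx U.2.1 hV1
    intro h2
    exact absurd hVW (not_lt_of_ge (Submodule.comap_mono h2))

/-- The successor relation. -/
def Nx (hE : Exact x y) (U U' : J x y) : Prop :=
  (U.1 = U'.1.map x ∧ pm hE.yx U = (pm hE.yx U').map x) ∨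
  (U.1 = U'.1.comap y ∧ pm hE.yx U = (pm hE.yx U').comap y)

lemma range_le_comap (hE : Exact x y) (V : Submodule E M) : LinearMap.range x ≤ V.comap y := by
  rintro _ ⟨m, rfl⟩
  rw [Submodule.mem_comap, hE.yx]
  exact V.zero_mem

lemma comap_bot_le_range (hE : Exact x y) : (⊥ : Submodule E M).comap y ≤ LinearMap.range x := by
  intro m hm
  rw [Submodule.mem_comap, Submodule.mem_bot] at hm
  exact hE.kery m hm

lemma Nx_exists (hE : Exact x y) (U : J x y) : ∃ U', Nx hE U U' := by
  by_cases hU : U.1 ≤ LinearMap.range x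
  · have h1 : ∃ V, CC x y V ∧ V.map x = U.1 := by
      obtain ⟨U, hCC, hne⟩ := U
      dsimp only at hU ⊢
      cases hCC with
      | bot => exact absurd rfl hne
      | top => exact ⟨⊤, CC.top, by rw [Submodule.map_top]; exact le_antisymm le_top hU⟩
      | mapx h => exact ⟨_, h, rfl⟩
      | comapy h =>
        refine ⟨⊤, CC.top, ?_⟩
        rw [Submodule.map_top]
        exact le_antisymm (range_le_comap hE _) hU
    have hfin : {V | CC x y V ∧ V.map x = U.1}.Finite :=
      (CC_finite (x := x) hE.yx).subset (fun W h => h.1)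
    obtain ⟨V, hV⟩ := hfin.exists_minimal h1
    have hV0 : V ≠ ⊥ := by
      rintro rfl
      have := hV.prop.2
      rw [Submodule.map_bot] at this
      exact U.2.2 this.symm
    let V' : J x y := ⟨V, hV.prop.1, hV0⟩
    have h2 : (pm hE.yx V').map x ≠ V'.1.map x := by
      intro h
      have h3 := hV.le_of_le (y := pm hE.yx V') ⟨pm_CC hE.yx V', h.trans hV.prop.2⟩
        (pm_lt hE.yx V').le
      exact absurd (pm_lt hE.yx V') (not_lt_of_ge h3)
    obtain ⟨W, hW1, hW2⟩ := pm_map hE V' h2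
    have hWU : W = U := Subtype.ext (hW1.trans hV.prop.2)
    subst hWU
    exact ⟨V', Or.inl ⟨hW1, hW2⟩⟩
  · have h1 : ∃ V, CC x y V ∧ V.comap y = U.1 := by
      obtain ⟨U, hCC, hne⟩ := U
      dsimp only at hU ⊢
      cases hCC with
      | bot => exact absurd rfl hne
      | top => exact ⟨⊤, CC.top, Submodule.comap_top _⟩
      | mapx h => exact absurd LinearMap.map_le_range hU
      | comapy h => exact ⟨_, h, rfl⟩
    have hfin : {V | CC x y V ∧ V.comap y = U.1}.Finite :=
      (CC_finite (x := x) hE.yx).subset (fun W h => h.1)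
    obtain ⟨V, hV⟩ := hfin.exists_minimal h1
    have hV0 : V ≠ ⊥ := by
      rintro rfl
      apply hU
      rw [← hV.prop.2]
      exact comap_bot_le_range hE
    let V' : J x y := ⟨V, hV.prop.1, hV0⟩
    have h2 : (pm hE.yx V').comap y ≠ V'.1.comap y := by
      intro h
      have h3 := hV.le_of_le (y := pm hE.yx V') ⟨pm_CC hE.yx V', h.trans hV.prop.2⟩
        (pm_lt hE.yx V').le
      exact absurd (pm_lt hE.yx V') (not_lt_of_ge h3)
    obtain ⟨W, hW1, hW2⟩ := pm_comap hE V' h2
    have hWU : W = U := Subtype.ext (hW1.trans hV.prop.2)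
    subst hWU
    exact ⟨V', Or.inr ⟨hW1, hW2⟩⟩

lemma Nx_type_X {hE : Exact x y} {U U' : J x y} (h : Nx hE U U')
    (hU : U.1 ≤ LinearMap.range x) :
    U.1 = U'.1.map x ∧ pm hE.yx U = (pm hE.yx U').map x := by
  rcases h with h | h
  · exact h
  · exfalso
    have h1 : U.1 ≤ pm hE.yx U := by
      rw [h.2]
      exact hU.trans (range_le_comap hE _)
    exact absurd (pm_lt hE.yx U) (not_lt_of_ge h1)

lemma Nx_type_Y {hE : Exact x y} {U U' : J x y} (h : Nx hE U U')
    (hU : ¬ U.1 ≤ LinearMap.range x) :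
    U.1 = U'.1.comap y ∧ pm hE.yx U = (pm hE.yx U').comap y := by
  rcases h with h | h
  · exfalso
    apply hU
    rw [h.1]
    exact LinearMap.map_le_range
  · exact h

lemma Nx_unique {hE : Exact x y} {U U' U'' : J x y} (h : Nx hE U U') (h' : Nx hE U U'') :
    U' = U'' := by
  have aux : ∀ {U' U'' : J x y}, Nx hE U U' → Nx hE U U'' → ¬ (U'.1 < U''.1) := by
    intro U' U'' h h' hlt
    have hle := le_pm hE.yx U'' U'.2.1 hlt
    by_cases hU : U.1 ≤ LinearMap.range x
    · have h1 := Nx_type_X h hU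
      have h2 := Nx_type_X h' hU
      have h3 : U.1 ≤ pm hE.yx U := by
        rw [h2.2]
        conv_lhs => rw [h1.1]
        exact Submodule.map_mono hle
      exact absurd (pm_lt hE.yx U) (not_lt_of_ge h3)
    · have h1 := Nx_type_Y h hU
      have h2 := Nx_type_Y h' hU
      have h3 : U.1 ≤ pm hE.yx U := by
        rw [h2.2]
        conv_lhs => rw [h1.1]
        exact Submodule.comap_mono hle
      exact absurd (pm_lt hE.yx U) (not_lt_of_ge h3)
  apply Subtype.ext
  rcases U'.2.1.total hE.yx _ U''.2.1 with h1 | h1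
  · exact eq_of_le_of_not_lt h1 (aux h h')
  · exact (eq_of_le_of_not_lt h1 (aux h' h)).symm

lemma Nx_surj (hE : Exact x y) (U' : J x y) : ∃ U, Nx hE U U' := by
  by_cases h1 : (pm hE.yx U').map x ≠ U'.1.map x
  · obtain ⟨W, hW⟩ := pm_map hE U' h1
    exact ⟨W, Or.inl hW⟩
  · by_cases h2 : (pm hE.yx U').comap y ≠ U'.1.comap y
    · obtain ⟨W, hW⟩ := pm_comap hE U' h2
      exact ⟨W, Or.inr hW⟩
    · exfalso
      push Not at h1 h2
      apply absurd (pm_lt hE.yx U')
      apply not_lt_of_ge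
      intro u hu
      have h3 : x u ∈ (pm hE.yx U').map x := by rw [h1]; exact ⟨u, hu, rfl⟩
      obtain ⟨p, hp, hpu⟩ := h3
      have h4 : x (u - p) = 0 := by rw [map_sub, hpu, sub_self]
      obtain ⟨z, hz⟩ := hE.kerx _ h4
      have h5 : z ∈ U'.1.comap y := by
        rw [Submodule.mem_comap, hz]
        exact U'.1.sub_mem hu ((pm_lt hE.yx U').le hp)
      rw [← h2, Submodule.mem_comap, hz] at h5
      have : u = (u - p) + p := by abel
      rw [this]
      exact (pm hE.yx U').add_mem h5 hp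

/-- The successor map. -/
noncomputable def nxf (hE : Exact x y) (U : J x y) : J x y := (Nx_exists hE U).choose

lemma nxf_spec (hE : Exact x y) (U : J x y) : Nx hE U (nxf hE U) := (Nx_exists hE U).choose_spec

lemma nxf_bijective (hE : Exact x y) : Function.Bijective (nxf hE) := by
  haveI := J_finite (x := x) hE.yx
  have hs : Function.Surjective (nxf hE) := by
    intro U'
    obtain ⟨U, hU⟩ := Nx_surj hE U'
    exact ⟨U, Nx_unique (nxf_spec hE U) hU⟩
  exact ⟨Finite.injective_iff_surjective.2 hs, hs⟩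

/-- `U` is of `x`-type. -/
def isX (U : J x y) : Prop := U.1 ≤ LinearMap.range x

lemma X1 (hE : Exact x y) {U : J x y} (h : isX U) : U.1 = (nxf hE U).1.map x :=
  (Nx_type_X (nxf_spec hE U) h).1

lemma X2 (hE : Exact x y) {U : J x y} (h : isX U) :
    pm hE.yx U = (pm hE.yx (nxf hE U)).map x :=
  (Nx_type_X (nxf_spec hE U) h).2

lemma Y1 (hE : Exact x y) {U : J x y} (h : ¬ isX U) : U.1 = (nxf hE U).1.comap y :=
  (Nx_type_Y (nxf_spec hE U) h).1

lemma Y2 (hE : Exact x y) {U : J x y} (h : ¬ isX U) :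
    pm hE.yx U = (pm hE.yx (nxf hE U)).comap y :=
  (Nx_type_Y (nxf_spec hE U) h).2

lemma X3 (hE : Exact x y) {U : J x y} (h : isX U) {u' : M} (hu' : u' ∈ (nxf hE U).1)
    (hx : x u' ∈ pm hE.yx U) : u' ∈ pm hE.yx (nxf hE U) := by
  by_contra hcon
  rw [X2 hE h] at hx
  obtain ⟨p, hp, hpu⟩ := hx
  have h4 : x (u' - p) = 0 := by rw [map_sub, hpu, sub_self]
  obtain ⟨z, hz⟩ := hE.kerx _ h4
  have h5 : z ∈ (nxf hE U).1.comap y := by
    rw [Submodule.mem_comap, hz]
    exact (nxf hE U).1.sub_mem hu' ((pm_lt hE.yx _).le hp)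
  have h6 : (pm hE.yx (nxf hE U)).comap y ≠ (nxf hE U).1.comap y := by
    intro he
    rw [← he, Submodule.mem_comap, hz] at h5
    apply hcon
    have : u' = (u' - p) + p := by abel
    rw [this]
    exact (pm hE.yx _).add_mem h5 hp
  obtain ⟨W, hW1, hW2⟩ := pm_comap hE _ h6
  have hWN : Nx hE W (nxf hE U) := Or.inr ⟨hW1, hW2⟩
  have hWU : W = U := (nxf_bijective hE).1 (Nx_unique (nxf_spec hE W) hWN)
  subst hWU
  have h7 : W.1 ≤ pm hE.yx W := by
    rw [hW2]
    exact (show W.1 ≤ LinearMap.range x from h).trans (range_le_comap hE _)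
  exact absurd (pm_lt hE.yx W) (not_lt_of_ge h7)

lemma Y3 (hE : Exact x y) {U : J x y} (h : ¬ isX U) {u' : M} (hu' : u' ∈ (nxf hE U).1) :
    ∃ u ∈ U.1, u' - y u ∈ pm hE.yx (nxf hE U) := by
  have h6 : (pm hE.yx (nxf hE U)).map x = (nxf hE U).1.map x := by
    by_contra h6
    obtain ⟨W, hW1, hW2⟩ := pm_map hE _ h6
    have hWN : Nx hE W (nxf hE U) := Or.inl ⟨hW1, hW2⟩
    have hWU : W = U := (nxf_bijective hE).1 (Nx_unique (nxf_spec hE W) hWN)
    subst hWU
    apply h
    change W.1 ≤ LinearMap.range x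
    rw [hW1]
    exact LinearMap.map_le_range
  have h7 : x u' ∈ (pm hE.yx (nxf hE U)).map x := by rw [h6]; exact ⟨u', hu', rfl⟩
  obtain ⟨p, hp, hpu⟩ := h7
  have h4 : x (u' - p) = 0 := by rw [map_sub, hpu, sub_self]
  obtain ⟨z, hz⟩ := hE.kerx _ h4
  refine ⟨z, ?_, ?_⟩
  · rw [Y1 hE h, Submodule.mem_comap, hz]
    exact (nxf hE U).1.sub_mem hu' ((pm_lt hE.yx _).le hp)
  · rw [hz, sub_sub_cancel]
    exact hp

end

end Pool.Agent.Helper32.Nodal
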