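import Mathlib

open Polynomial

namespace Pool.Agent.Helper32.Nodal

set_option linter.unusedSectionVars false

variable {κ E V : Type*} [Field κ] [Ring E] [Algebra κ E] [AddCommGroup V] [Module κ V]
  [Module E V] [IsScalarTower κ E V]

/-- The action of a polynomial. -/
noncomputable def pT (T : Module.End E V) (f : κ[X]) : Module.End E V := aeval T f

lemma pT_mul (T : Module.End E V) (f g : κ[X]) (v : V) : pT T (f * g) v = pT T f (pT T g v) := by
  simp [pT]

lemma pT_add (T : Module.End E V) (f g : κ[X]) (v : V) : pT T (f + g) v = pT T f v + pT T g v := by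
  simp [pT]

lemma pT_comm (T : Module.End E V) (f g : κ[X]) (v : V) :
    pT T f (pT T g v) = pT T g (pT T f v) := by
  rw [← pT_mul, mul_comm, pT_mul]

lemma pT_one (T : Module.End E V) (v : V) : pT T (1 : κ[X]) v = v := by
  simp [pT]

lemma pT_zero (T : Module.End E V) (v : V) : pT T (0 : κ[X]) v = 0 := by
  simp [pT]

lemma pT_X (T : Module.End E V) (v : V) : pT T (X : κ[X]) v = T v := by
  simp [pT]

lemma pT_C (T : Module.End E V) (c : κ) (v : V) : pT T (C c) v = c • v := by
  simp [pT]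

lemma pT_pow (T : Module.End E V) (f : κ[X]) (n : ℕ) : pT T (f ^ n) = (pT T f) ^ n := by
  simp [pT]

/-- A `T`-stable `κ`-subspace is stable under all polynomials in `T`. -/
lemma pT_mem {T : Module.End E V} {P : Submodule κ V} (hP : ∀ v ∈ P, T v ∈ P) (f : κ[X]) :
    ∀ v ∈ P, pT T f v ∈ P := by
  induction f using Polynomial.induction_on with
  | C c => intro v hv; rw [pT_C]; exact P.smul_mem c hv
  | add p q hp hq => intro v hv; rw [pT_add]; exact P.add_mem (hp v hv) (hq v hv)
  | monomial n c h =>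
    intro v hv
    rw [pow_succ, ← mul_assoc, pT_mul, pT_X]
    exact h _ (hP v hv)

/-- Existence of a maximal `T`-stable subspace disjoint from `W`. -/
lemma exists_max_disjoint (T : Module.End E V) (W : Submodule κ V) :
    ∃ N : Submodule κ V, (∀ v ∈ N, T v ∈ N) ∧ Disjoint W N ∧
      ∀ N' : Submodule κ V, (∀ v ∈ N', T v ∈ N') → Disjoint W N' → N ≤ N' → N' ≤ N := by
  obtain ⟨N, -, hN⟩ := zorn_le_nonempty₀
    {N : Submodule κ V | (∀ v ∈ N, T v ∈ N) ∧ Disjoint W N} (by
      intro c hc hchain y hy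
      refine ⟨sSup c, ⟨?_, ?_⟩, fun z hz => le_sSup hz⟩
      · intro v hv
        rw [Submodule.mem_sSup_of_directed ⟨y, hy⟩ hchain.directedOn] at hv ⊢
        obtain ⟨p, hp, hvp⟩ := hv
        exact ⟨p, hp, (hc hp).1 v hvp⟩
      · rw [Submodule.disjoint_def]
        intro v hvW hv
        rw [Submodule.mem_sSup_of_directed ⟨y, hy⟩ hchain.directedOn] at hv
        obtain ⟨p, hp, hvp⟩ := hv
        exact Submodule.disjoint_def.1 (hc hp).2 v hvW hvp) ⊥ ⟨by simp, disjoint_bot_right⟩
  refine ⟨N, hN.prop.1, hN.prop.2, ?_⟩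
  intro N' h1 h2 h3
  exact hN.le_of_ge ⟨h1, h2⟩ h3

/-- The cyclic `κ[T]`-subspace generated by `v`. -/
noncomputable def cyc (κ : Type*) [Field κ] [Algebra κ E] [Module κ V] [IsScalarTower κ E V]
    (T : Module.End E V) (v : V) : Submodule κ V where
  carrier := {w | ∃ g : κ[X], pT T g v = w}
  add_mem' := by
    rintro _ _ ⟨f, rfl⟩ ⟨g, rfl⟩
    exact ⟨f + g, pT_add T f g v⟩
  zero_mem' := ⟨0, pT_zero T v⟩
  smul_mem' := by
    rintro c _ ⟨f, rfl⟩
    exact ⟨C c * f, by rw [pT_mul, pT_C]⟩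

lemma mem_cyc {T : Module.End E V} {v w : V} : w ∈ cyc κ T v ↔ ∃ g : κ[X], pT T g v = w := Iff.rfl

lemma cyc_stable (T : Module.End E V) (v : V) : ∀ w ∈ cyc κ T v, T w ∈ cyc κ T v := by
  rintro _ ⟨g, rfl⟩
  exact ⟨X * g, by rw [pT_mul, pT_X]⟩

lemma self_mem_cyc (T : Module.End E V) (v : V) : v ∈ cyc κ T v := ⟨1, pT_one T v⟩

/-- Fitting dichotomy. -/
lemma nilp_or_bij [IsArtinian E V] [IsNoetherian E V] (T : Module.End E V)
    (hind : ∀ P Q : Submodule κ V, IsCompl P Q → (∀ v ∈ P, T v ∈ P) → (∀ v ∈ Q, T v ∈ Q) →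
      P = ⊥ ∨ Q = ⊥) (f : κ[X]) :
    (∃ n, ∀ v, (pT T f ^ n) v = 0) ∨ Function.Bijective (pT T f) := by
  have hc := LinearMap.isCompl_iSup_ker_pow_iInf_range_pow (pT T f)
  set A : Submodule E V := ⨆ n, LinearMap.ker (pT T f ^ n)
  set B : Submodule E V := ⨅ n, LinearMap.range (pT T f ^ n)
  have hA : ∃ n, A = LinearMap.ker (pT T f ^ n) := by
    obtain ⟨n, hn⟩ := (LinearMap.eventually_iSup_ker_pow_eq (pT T f)).exists
    exact ⟨n, hn⟩
  obtain ⟨n, hn⟩ := hA
  have hB : ∃ n, B = LinearMap.range (pT T f ^ n) := by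
    obtain ⟨n, hn⟩ := (LinearMap.eventually_iInf_range_pow_eq (pT T f)).exists
    exact ⟨n, hn⟩
  obtain ⟨m, hm⟩ := hB
  have hcomm : ∀ (n : ℕ) (v : V), (pT T f ^ n) (T v) = T ((pT T f ^ n) v) := by
    intro n v
    rw [← pT_pow, ← pT_X (κ := κ) T v, pT_comm, pT_X]
  have hAs : ∀ v ∈ A.restrictScalars κ, T v ∈ A.restrictScalars κ := by
    intro v hv
    rw [Submodule.restrictScalars_mem, hn, LinearMap.mem_ker] at *
    rw [hcomm, hv, map_zero]
  have hBs : ∀ v ∈ B.restrictScalars κ, T v ∈ B.restrictScalars κ := by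
    intro v hv
    rw [Submodule.restrictScalars_mem, hm, LinearMap.mem_range] at *
    obtain ⟨w, rfl⟩ := hv
    exact ⟨T w, hcomm m w⟩
  have hcompl : IsCompl (A.restrictScalars κ) (B.restrictScalars κ) := by
    constructor
    · rw [Submodule.disjoint_def]
      intro v h1 h2
      exact Submodule.disjoint_def.1 hc.disjoint v h1 h2
    · rw [codisjoint_iff, eq_top_iff]
      intro v _
      have : v ∈ A ⊔ B := by rw [hc.sup_eq_top]; trivial
      obtain ⟨a, ha, b, hb, rfl⟩ := Submodule.mem_sup.1 this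
      exact Submodule.add_mem_sup ha hb
  rcases hind _ _ hcompl hAs hBs with h | h
  · right
    have hA0 : A = ⊥ := by
      rw [Submodule.eq_bot_iff]
      intro v hv
      have : v ∈ A.restrictScalars κ := hv
      rwa [h, Submodule.mem_bot] at this
    have hinj : Function.Injective (pT T f) := by
      rw [← LinearMap.ker_eq_bot, eq_bot_iff, ← hA0]
      have := le_iSup (fun n => LinearMap.ker (pT T f ^ n)) 1
      rwa [pow_one] at this
    exact IsArtinian.bijective_of_injective_endomorphism _ hinj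
  · left
    refine ⟨m, fun v => ?_⟩
    have h1 : (pT T f ^ m) v ∈ B.restrictScalars κ := by
      rw [Submodule.restrictScalars_mem, hm]
      exact ⟨v, rfl⟩
    rwa [h, Submodule.mem_bot] at h1

/-- Some irreducible polynomial in `T` is nilpotent, if some nonzero polynomial is. -/
lemma exists_irreducible_nilp [IsArtinian E V] [IsNoetherian E V] [Nontrivial V]
    (T : Module.End E V)
    (hind : ∀ P Q : Submodule κ V, IsCompl P Q → (∀ v ∈ P, T v ∈ P) → (∀ v ∈ Q, T v ∈ Q) →
      P = ⊥ ∨ Q = ⊥) (f : κ[X]) (hf : f ≠ 0) (hn : ¬ Function.Bijective (pT T f)) :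
    ∃ π : κ[X], Irreducible π ∧ ∃ n, ∀ v, (pT T π ^ n) v = 0 := by
  induction f using WfDvdMonoid.induction_on_irreducible with
  | zero => exact absurd rfl hf
  | unit u hu =>
    exfalso
    apply hn
    obtain ⟨w, hw⟩ := hu.exists_right_inv
    constructor
    · intro a b hab
      have h1 : pT T w (pT T u a) = pT T w (pT T u b) := by rw [hab]
      rwa [← pT_mul, ← pT_mul, mul_comm w u, hw, pT_one, pT_one] at h1
    · intro a
      exact ⟨pT T w a, by rw [← pT_mul, hw, pT_one]⟩
  | mul a i ha hi ih =>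
    by_cases h : Function.Bijective (pT T i)
    · apply ih ha
      intro h2
      apply hn
      have : (pT T (i * a) : V → V) = (pT T i) ∘ (pT T a) := by
        ext v
        exact pT_mul T i a v
      rw [this]
      exact h.comp h2
    · rcases nilp_or_bij T hind i with h3 | h3
      · exact ⟨i, hi, h3⟩
      · exact absurd h3 h

/-- Case A: torsion. -/
lemma finite_of_irreducible_nilp (T : Module.End E V) [Nontrivial V]
    (hind : ∀ P Q : Submodule κ V, IsCompl P Q → (∀ v ∈ P, T v ∈ P) → (∀ v ∈ Q, T v ∈ Q) →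
      P = ⊥ ∨ Q = ⊥) {π : κ[X]} (hπ : Irreducible π) (hn : ∃ n, ∀ v, (pT T π ^ n) v = 0) :
    Module.Finite κ V := by
  classical
  have hnil : ∀ v, (pT T π ^ (Nat.find hn)) v = 0 := Nat.find_spec hn
  have hpos : 0 < Nat.find hn := by
    rw [Nat.pos_iff_ne_zero]
    intro h
    obtain ⟨v, hv⟩ := exists_ne (0 : V)
    apply hv
    have := hnil v
    rwa [h, pow_zero] at this
  obtain ⟨n, hn'⟩ : ∃ n, Nat.find hn = n + 1 := ⟨Nat.find hn - 1, by omega⟩
  rw [hn'] at hnil
  have hmin : ∃ v, (pT T π ^ n) v ≠ 0 := by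
    by_contra h
    push Not at h
    exact Nat.find_min hn (by omega : n < Nat.find hn) h
  obtain ⟨v0, hv0⟩ := hmin
  rw [← pT_pow] at hv0
  simp only [← pT_pow] at hnil
  -- key: every nonzero element of `cyc v0` has a multiple equal to `π^n v0`
  have key : ∀ w ∈ cyc κ T v0, w ≠ 0 → ∃ g : κ[X], pT T g w = pT T (π ^ n) v0 := by
    rintro _ ⟨g, rfl⟩ hw
    have hg0 : g ≠ 0 := by
      rintro rfl
      exact hw (pT_zero T v0)
    obtain ⟨a, c, hc, rfl⟩ := WfDvdMonoid.max_power_factor hg0 hπ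
    have han : a ≤ n := by
      by_contra h
      push Not at h
      apply hw
      obtain ⟨d, rfl⟩ := Nat.exists_eq_add_of_lt h
      have : π ^ (n + d + 1) * c = c * π ^ d * π ^ (n + 1) := by ring
      rw [this, pT_mul, hnil, map_zero]
    have hcop : IsCoprime c (π ^ (n + 1)) := by
      apply IsCoprime.pow_right
      exact (hπ.coprime_iff_not_dvd.2 hc).symm
    obtain ⟨x, y, hxy⟩ := hcop
    refine ⟨π ^ (n - a) * x, ?_⟩
    rw [← pT_mul]
    have : π ^ (n - a) * x * (π ^ a * c) = π ^ n * (x * c) := by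
      have h1 : π ^ n = π ^ (n - a) * π ^ a := by rw [← pow_add]; congr 1; omega
      rw [h1]; ring
    rw [this, pT_mul]
    have h2 : x * c = 1 - y * π ^ (n + 1) := by rw [← hxy]; ring
    have h3 : pT T (x * c) v0 = v0 := by
      have h4 : pT T (x * c + y * π ^ (n + 1)) v0 = v0 := by rw [hxy, pT_one]
      rwa [pT_add, pT_mul T y, hnil, map_zero, add_zero] at h4
    rw [h3]
  obtain ⟨N, hNs, hNd, hNmax⟩ := exists_max_disjoint T (cyc κ T v0)
  have hsup : cyc κ T v0 ⊔ N = ⊤ := by
    rw [eq_top_iff]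
    -- first: if `π v ∈ W + N` then `v ∈ W + N`
    have hstep : ∀ v, pT T π v ∈ cyc κ T v0 ⊔ N → v ∈ cyc κ T v0 ⊔ N := by
      intro v hv
      obtain ⟨_, ⟨g, rfl⟩, n1, hn1, hvn⟩ := Submodule.mem_sup.1 hv
      -- π divides g
      have hπg : π ∣ g := by
        by_contra hnd
        have h1 : pT T (π ^ n) (pT T g v0) ∈ N := by
          have h2 : pT T (π ^ n) (pT T g v0) + pT T (π ^ n) n1 = 0 := by
            rw [← map_add, hvn, ← pT_mul, ← pow_succ, hnil]
          rw [eq_neg_of_add_eq_zero_left h2]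
          exact N.neg_mem (pT_mem hNs _ _ hn1)
        have h3 : pT T (π ^ n) (pT T g v0) ∈ cyc κ T v0 := ⟨π ^ n * g, pT_mul T _ _ _⟩
        have h4 := Submodule.disjoint_def.1 hNd _ h3 h1
        have hcop : IsCoprime g π := (hπ.coprime_iff_not_dvd.2 hnd).symm
        obtain ⟨x, y, hxy⟩ := hcop
        apply hv0
        have h5 : pT T (π ^ n) v0 = pT T (π ^ n * (x * g + y * π)) v0 := by rw [hxy, mul_one]
        rw [h5]
        have h6 : π ^ n * (x * g + y * π) = x * (π ^ n * g) + y * π ^ (n + 1) := by ring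
        rw [h6, pT_add, pT_mul T x, pT_mul T (π ^ n), h4, map_zero, pT_mul T y, hnil, map_zero,
          add_zero]
      obtain ⟨g1, rfl⟩ := hπg
      set v' := v - pT T g1 v0 with hv'
      have hv'N : pT T π v' ∈ N := by
        have : pT T π v' = n1 := by
          rw [hv', map_sub, ← pT_mul, ← hvn, add_sub_cancel_left]
        rwa [this]
      -- enough: v' ∈ W + N
      suffices hs : v' ∈ cyc κ T v0 ⊔ N by
        have : v = v' + pT T g1 v0 := by rw [hv']; abel
        rw [this]
        exact Submodule.add_mem _ hs (Submodule.mem_sup_left ⟨g1, rfl⟩)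
      by_contra hcon
      -- N + cyc v' meets W
      have hlt : ¬ Disjoint (cyc κ T v0) (N ⊔ cyc κ T v') := by
        intro hd
        have := hNmax (N ⊔ cyc κ T v') (by
          intro w hw
          obtain ⟨a, ha, b, hb, rfl⟩ := Submodule.mem_sup.1 hw
          rw [map_add]
          exact Submodule.add_mem_sup (hNs a ha) (cyc_stable T v' b hb)) hd le_sup_left
        apply hcon
        exact Submodule.mem_sup_right (this (Submodule.mem_sup_right (self_mem_cyc T v')))
      rw [Submodule.disjoint_def] at hlt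
      push Not at hlt
      obtain ⟨w, hwW, hw, hw0⟩ := hlt
      obtain ⟨n2, hn2, _, ⟨h, rfl⟩, rfl⟩ := Submodule.mem_sup.1 hw
      by_cases hπh : π ∣ h
      · obtain ⟨h1, rfl⟩ := hπh
        apply hw0
        apply Submodule.disjoint_def.1 hNd _ hwW
        apply N.add_mem hn2
        rw [mul_comm, pT_mul]
        exact pT_mem hNs _ _ hv'N
      · have hcop : IsCoprime h π := (hπ.coprime_iff_not_dvd.2 hπh).symm
        obtain ⟨x, y, hxy⟩ := hcop
        apply hcon
        have h1 : v' = pT T x (pT T h v') + pT T y (pT T π v') := by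
          rw [← pT_mul, ← pT_mul, ← pT_add, hxy, pT_one]
        have h2 : pT T h v' = (n2 + pT T h v') - n2 := by abel
        rw [h1]
        apply Submodule.add_mem
        · rw [h2, map_sub]
          apply Submodule.sub_mem
          · exact Submodule.mem_sup_left (pT_mem (cyc_stable T v0) _ _ hwW)
          · exact Submodule.mem_sup_right (pT_mem hNs _ _ hn2)
        · exact Submodule.mem_sup_right (pT_mem hNs _ _ hv'N)
    intro v _
    -- iterate
    have hiter : ∀ m : ℕ, ∀ v, pT T (π ^ m) v ∈ cyc κ T v0 ⊔ N → v ∈ cyc κ T v0 ⊔ N := by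
      intro m
      induction m with
      | zero => intro v hv; rwa [pow_zero, pT_one] at hv
      | succ m ih =>
        intro v hv
        apply ih
        apply hstep
        rwa [← pT_mul, ← pow_succ']
    apply hiter (n + 1)
    rw [hnil]
    exact Submodule.zero_mem _
  have hcompl : IsCompl (cyc κ T v0) N := ⟨hNd, codisjoint_iff.2 hsup⟩
  have hv00 : v0 ≠ 0 := by
    rintro rfl
    exact hv0 (map_zero _)
  rcases hind _ _ hcompl (cyc_stable T v0) hNs with h | h
  · exfalso
    apply hv00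
    have := self_mem_cyc (κ := κ) T v0
    rwa [h, Submodule.mem_bot] at this
  · rw [h, sup_bot_eq] at hsup
    -- V is spanned by finitely many elements
    have hmonic : (π ^ (n + 1)) ≠ 0 := pow_ne_zero _ hπ.ne_zero
    set D := (π ^ (n + 1)).natDegree
    rw [Module.finite_def, ← hsup]
    refine ⟨(Finset.range D).image (fun i => pT T (X ^ i : κ[X]) v0), le_antisymm ?_ ?_⟩
    · rw [Submodule.span_le]
      intro w hw
      simp only [Finset.coe_image, Set.mem_image] at hw
      obtain ⟨i, -, rfl⟩ := hw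
      exact ⟨_, rfl⟩
    · rintro _ ⟨g, rfl⟩
      have h1 : pT T g v0 = pT T (g % (π ^ (n + 1))) v0 := by
        conv_lhs => rw [← EuclideanDomain.mod_add_div g (π ^ (n + 1))]
        rw [pT_add, mul_comm, pT_mul, hnil, map_zero, add_zero]
      rw [h1]
      set r := g % (π ^ (n + 1)) with hr
      have hdeg : r.natDegree < D ∨ r = 0 := by
        by_cases hr0 : r = 0
        · exact Or.inr hr0
        · left
          apply Polynomial.natDegree_lt_natDegree hr0
          exact EuclideanDomain.mod_lt g hmonic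
      rcases hdeg with hdeg | hr0
      · rw [r.as_sum_range_C_mul_X_pow' hdeg]
        have h2 : pT T (∑ i ∈ Finset.range D, C (r.coeff i) * X ^ i) v0
            = ∑ i ∈ Finset.range D, r.coeff i • pT T (X ^ i : κ[X]) v0 := by
          simp only [pT, map_sum, LinearMap.sum_apply]
          apply Finset.sum_congr rfl
          intro i _
          have := pT_mul T (C (r.coeff i)) (X ^ i) v0
          rw [pT_C] at this
          exact this
        rw [h2]
        apply Submodule.sum_mem
        intro i hi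
        apply Submodule.smul_mem
        apply Submodule.subset_span
        simp only [Finset.coe_image, Set.mem_image]
        exact ⟨i, hi, rfl⟩
      · rw [hr0, pT_zero]
        exact Submodule.zero_mem _

/-- Case B: torsion-free divisible. -/
lemma comm_of_bijective (T : Module.End E V) [Nontrivial V]
    (hind : ∀ P Q : Submodule κ V, IsCompl P Q → (∀ v ∈ P, T v ∈ P) → (∀ v ∈ Q, T v ∈ Q) →
      P = ⊥ ∨ Q = ⊥) (hbij : ∀ f : κ[X], f ≠ 0 → Function.Bijective (pT T f)) :
    ∀ a b : E, ∀ v : V, a • b • v = b • a • v := by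
  obtain ⟨v0, hv0⟩ := exists_ne (0 : V)
  let W : Submodule κ V :=
    { carrier := {v | ∃ f : κ[X], f ≠ 0 ∧ ∃ g : κ[X], pT T f v = pT T g v0}
      add_mem' := by
        rintro v w ⟨f, hf, g, hfg⟩ ⟨f', hf', g', hfg'⟩
        refine ⟨f * f', mul_ne_zero hf hf', f' * g + f * g', ?_⟩
        rw [map_add, pT_add, pT_mul T f' g, ← hfg, pT_mul T f g', ← hfg', pT_mul, pT_mul,
          pT_comm T f f' v]
      zero_mem' := ⟨1, one_ne_zero, 0, by rw [map_zero, pT_zero]⟩
      smul_mem' := by
        rintro c v ⟨f, hf, g, hfg⟩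
        refine ⟨f, hf, C c * g, ?_⟩
        rw [pT_mul, ← hfg, ← pT_C (κ := κ) T c v, pT_comm] }
  have memW : ∀ v, v ∈ W ↔ ∃ f : κ[X], f ≠ 0 ∧ ∃ g : κ[X], pT T f v = pT T g v0 := fun v => Iff.rfl
  have hWs : ∀ v ∈ W, T v ∈ W := by
    rintro v ⟨f, hf, g, hfg⟩
    refine ⟨f, hf, X * g, ?_⟩
    rw [pT_mul, ← hfg, ← pT_X (κ := κ) T v, pT_comm]
  have hWdiv : ∀ f : κ[X], f ≠ 0 → ∀ w ∈ W, ∃ w' ∈ W, pT T f w' = w := by
    intro f hf w hw
    obtain ⟨w', rfl⟩ := (hbij f hf).2 w
    obtain ⟨h, hh, g, hg⟩ := hw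
    exact ⟨w', ⟨h * f, mul_ne_zero hh hf, g, by rw [pT_mul, hg]⟩, rfl⟩
  have hv0W : v0 ∈ W := ⟨1, one_ne_zero, 1, rfl⟩
  obtain ⟨N, hNs, hNd, hNmax⟩ := exists_max_disjoint T W
  have hsup : W ⊔ N = ⊤ := by
    rw [eq_top_iff]
    intro v _
    by_contra hcon
    have meets : ∀ v', v' ∉ W ⊔ N → ∃ n2 ∈ N, ∃ h : κ[X], n2 + pT T h v' ∈ W ∧
        n2 + pT T h v' ≠ 0 := by
      intro v' hv'
      have hlt : ¬ Disjoint W (N ⊔ cyc κ T v') := by
        intro hd
        have := hNmax (N ⊔ cyc κ T v') (by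
          intro w hw
          obtain ⟨a, ha, b, hb, rfl⟩ := Submodule.mem_sup.1 hw
          rw [map_add]
          exact Submodule.add_mem_sup (hNs a ha) (cyc_stable T v' b hb)) hd le_sup_left
        apply hv'
        exact Submodule.mem_sup_right (this (Submodule.mem_sup_right (self_mem_cyc T v')))
      rw [Submodule.disjoint_def] at hlt
      push Not at hlt
      obtain ⟨w, hwW, hw, hw0⟩ := hlt
      obtain ⟨n2, hn2, _, ⟨h, rfl⟩, rfl⟩ := Submodule.mem_sup.1 hw
      exact ⟨n2, hn2, h, hwW, hw0⟩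
    obtain ⟨n2, hn2, h, hW, h0⟩ := meets v hcon
    have hh0 : h ≠ 0 := by
      rintro rfl
      rw [pT_zero, add_zero] at hW h0
      exact h0 (Submodule.disjoint_def.1 hNd _ hW hn2)
    obtain ⟨w', hw', hw'e⟩ := hWdiv h hh0 _ hW
    set v' := v - w' with hv'
    have hv'N : pT T h v' ∈ N := by
      have : pT T h v' = - n2 := by
        rw [hv', map_sub, hw'e]; abel
      rw [this]; exact N.neg_mem hn2
    have hv'not : v' ∉ W ⊔ N := by
      intro hc
      apply hcon
      have : v = v' + w' := by rw [hv']; abel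
      rw [this]
      exact Submodule.add_mem _ hc (Submodule.mem_sup_left hw')
    obtain ⟨n3, hn3, h3, hW3, h30⟩ := meets v' hv'not
    apply h30
    have h4 : pT T h (n3 + pT T h3 v') ∈ N := by
      rw [map_add, pT_comm]
      exact N.add_mem (pT_mem hNs _ _ hn3) (pT_mem hNs _ _ hv'N)
    have h5 : pT T h (n3 + pT T h3 v') ∈ W := pT_mem hWs _ _ hW3
    have h6 := Submodule.disjoint_def.1 hNd _ h5 h4
    exact (hbij h hh0).1 (by rw [h6, map_zero])
  have hcompl : IsCompl W N := ⟨hNd, codisjoint_iff.2 hsup⟩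
  rcases hind _ _ hcompl hWs hNs with h | h
  · exfalso
    apply hv0
    rwa [h, Submodule.mem_bot] at hv0W
  · rw [h, sup_bot_eq] at hsup
    have hall : ∀ v, ∃ f : κ[X], f ≠ 0 ∧ ∃ g : κ[X], pT T f v = pT T g v0 := by
      intro v
      rw [← memW, hsup]; trivial
    intro a b
    have hv : a • b • v0 = b • a • v0 := by
      obtain ⟨f, hf, g, hfg⟩ := hall (a • v0)
      obtain ⟨f', hf', g', hfg'⟩ := hall (b • v0)
      apply (hbij (f * f') (mul_ne_zero hf hf')).1
      have h1 : pT T (f * f') (a • b • v0) = pT T g' (pT T g v0) := by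
        rw [pT_mul, map_smul, map_smul, hfg', pT_comm, ← map_smul, ← map_smul, hfg]
      have h2 : pT T (f * f') (b • a • v0) = pT T g (pT T g' v0) := by
        rw [mul_comm, pT_mul, map_smul, map_smul, hfg, pT_comm, ← map_smul, ← map_smul, hfg']
      rw [h1, h2, pT_comm]
    intro v
    obtain ⟨f, hf, g, hfg⟩ := hall v
    apply (hbij f hf).1
    rw [map_smul, map_smul, map_smul, map_smul, hfg, ← map_smul (pT T g), ← map_smul (pT T g),
      ← map_smul (pT T g), ← map_smul (pT T g), hv]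

/-- Main lemma on modules with a single commuting operator. -/
theorem comm_or_finite [IsArtinian E V] [IsNoetherian E V] [Nontrivial V]
    (T : Module.End E V)
    (hind : ∀ P Q : Submodule κ V, IsCompl P Q → (∀ v ∈ P, T v ∈ P) → (∀ v ∈ Q, T v ∈ Q) →
      P = ⊥ ∨ Q = ⊥) :
    Module.Finite κ V ∨ ∀ a b : E, ∀ v : V, a • b • v = b • a • v := by
  by_cases h : ∀ f : κ[X], f ≠ 0 → Function.Bijective (pT T f)
  · exact Or.inr (comm_of_bijective T hind h)
  · push Not at h
    obtain ⟨f, hf, hfb⟩ := h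
    obtain ⟨π, hπ, hn⟩ := exists_irreducible_nilp T hind f hf hfb
    exact Or.inl (finite_of_irreducible_nilp T hind hπ hn)

end Pool.Agent.Helper32.Nodal
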