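import Mathlib
import Pool.Agent.Helper32.Nodal.Chain

namespace Pool.Agent.Helper32.Nodal

set_option linter.unusedSectionVars false

section LinAlg

variable {κ M : Type*} [Field κ] [AddCommGroup M] [Module κ M]

lemma exists_sel {X : Type*} [AddCommGroup X] [Module κ X] (F : X →ₗ[κ] M) :
    ∃ G : M →ₗ[κ] X, ∀ z, F (G (F z)) = F z := by
  obtain ⟨g, hg⟩ := F.rangeRestrict.exists_rightInverse_of_surjective F.range_rangeRestrict
  obtain ⟨G, hG⟩ := g.exists_extend
  refine ⟨G, fun z => ?_⟩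
  have h1 : G (F z) = g ⟨F z, ⟨z, rfl⟩⟩ := by
    rw [← hG]; rfl
  rw [h1]
  have h2 := LinearMap.congr_fun hg ⟨F z, ⟨z, rfl⟩⟩
  exact congrArg Subtype.val h2

lemma exists_lift (x : M →ₗ[κ] M) (W : Submodule κ M) :
    ∃ h : M →ₗ[κ] M, ∀ q ∈ W.map x, h q ∈ W ∧ x (h q) = q := by
  obtain ⟨G, hG⟩ := exists_sel (x.comp W.subtype)
  refine ⟨W.subtype.comp G, ?_⟩
  rintro _ ⟨w, hw, rfl⟩
  refine ⟨(G (x w)).2, ?_⟩
  exact hG ⟨w, hw⟩

lemma exists_proj (W : Submodule κ M) :
    ∃ π : M →ₗ[κ] M, (∀ m, π m ∈ W) ∧ ∀ w ∈ W, π w = w := by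
  obtain ⟨Q, hQ⟩ := W.exists_isCompl
  exact ⟨W.projection Q hQ, fun m => Submodule.projection_apply_mem hQ m,
    fun w hw => Submodule.projection_apply_of_mem_left hQ hw⟩

lemma exists_adapted_lift (x : M →ₗ[κ] M) (W : ℕ → Submodule κ M) (hW : Monotone W) (N : ℕ) :
    ∃ h : M →ₗ[κ] M, ∀ n ≤ N, ∀ q ∈ (W n).map x, h q ∈ W n ∧ x (h q) = q := by
  induction N with
  | zero =>
    obtain ⟨h, hh⟩ := exists_lift x (W 0)
    refine ⟨h, fun n hn => ?_⟩
    rw [Nat.le_zero.1 hn]
    exact hh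
  | succ N ih =>
    obtain ⟨h, hh⟩ := ih
    obtain ⟨l, hl⟩ := exists_lift x (W (N + 1))
    obtain ⟨π, hπ1, hπ2⟩ := exists_proj ((W N).map x)
    refine ⟨h.comp π + l.comp (LinearMap.id - π), ?_⟩
    intro n hn q hq
    rcases Nat.lt_or_ge N n with h1 | h1
    · have hn' : n = N + 1 := le_antisymm hn h1
      subst hn'
      have h2 := hh N le_rfl (π q) (hπ1 q)
      have h3 : q - π q ∈ (W (N + 1)).map x :=
        Submodule.sub_mem _ hq (Submodule.map_mono (hW (Nat.le_succ N)) (hπ1 q))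
      have h4 := hl _ h3
      constructor
      · exact Submodule.add_mem _ (hW (Nat.le_succ N) h2.1) h4.1
      · simp only [LinearMap.add_apply, LinearMap.comp_apply, LinearMap.sub_apply,
          LinearMap.id_apply, map_add]
        rw [h2.2, h4.2]; abel
    · have h2 : π q = q := hπ2 q (Submodule.map_mono (hW h1) hq)
      have h3 := hh n h1 q hq
      simp only [LinearMap.add_apply, LinearMap.comp_apply, LinearMap.sub_apply,
        LinearMap.id_apply, h2, sub_self, map_zero, add_zero]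
      exact h3

end LinAlg

variable {E M : Type*} [Ring E] [AddCommGroup M] [Module E M]
variable {x y : M →ₗ[E] M} [IsArtinian E M] [IsNoetherian E M]

open Classical in
/-- Iterated approximations of the predecessor from below. -/
noncomputable def zz (hE : Exact x y) : ℕ → J x y → Submodule E M
  | 0, _ => ⊥
  | n + 1, U => if isX U then (zz hE n (nxf hE U)).map x else (zz hE n (nxf hE U)).comap y

lemma zz_succ_X (hE : Exact x y) (n : ℕ) {U : J x y} (h : isX U) :
    zz hE (n + 1) U = (zz hE n (nxf hE U)).map x := by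
  rw [zz, if_pos h]

lemma zz_succ_Y (hE : Exact x y) (n : ℕ) {U : J x y} (h : ¬ isX U) :
    zz hE (n + 1) U = (zz hE n (nxf hE U)).comap y := by
  rw [zz, if_neg h]

lemma zz_le_succ (hE : Exact x y) (n : ℕ) : ∀ U : J x y, zz hE n U ≤ zz hE (n + 1) U := by
  induction n with
  | zero => intro U; exact bot_le
  | succ n ih =>
    intro U
    by_cases h : isX U
    · rw [zz_succ_X hE _ h, zz_succ_X hE _ h]
      exact Submodule.map_mono (ih _)
    · rw [zz_succ_Y hE _ h, zz_succ_Y hE _ h]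
      exact Submodule.comap_mono (ih _)

lemma zz_mono (hE : Exact x y) (U : J x y) : Monotone (fun n => zz hE n U) :=
  monotone_nat_of_le_succ (fun n => zz_le_succ hE n U)

lemma zz_le_pm (hE : Exact x y) (n : ℕ) : ∀ U : J x y, zz hE n U ≤ pm hE.yx U := by
  induction n with
  | zero => intro U; exact bot_le
  | succ n ih =>
    intro U
    by_cases h : isX U
    · rw [zz_succ_X hE _ h, X2 hE h]
      exact Submodule.map_mono (ih _)
    · rw [zz_succ_Y hE _ h, Y2 hE h]
      exact Submodule.comap_mono (ih _)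

lemma zz_claim (hE : Exact x y) {V : Submodule E M} (hV : CC x y V) :
    ∀ U : J x y, (∃ n, V ≤ zz hE n U) ∨ U.1 ≤ V := by
  induction hV with
  | bot => intro U; exact Or.inl ⟨0, bot_le⟩
  | top => intro U; exact Or.inr le_top
  | @mapx V hV ih =>
    intro U
    by_cases h : isX U
    · rcases ih (nxf hE U) with ⟨n, hn⟩ | h1
      · left
        refine ⟨n + 1, ?_⟩
        rw [zz_succ_X hE _ h]
        exact Submodule.map_mono hn
      · right
        rw [X1 hE h]
        exact Submodule.map_mono h1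
    · left
      refine ⟨1, ?_⟩
      rw [zz_succ_Y hE _ h]
      exact map_le_comap' hE.yx _ _
  | @comapy V hV ih =>
    intro U
    by_cases h : isX U
    · right
      exact (show U.1 ≤ LinearMap.range x from h).trans (range_le_comap hE _)
    · rcases ih (nxf hE U) with ⟨n, hn⟩ | h1
      · left
        refine ⟨n + 1, ?_⟩
        rw [zz_succ_Y hE _ h]
        exact Submodule.comap_mono hn
      · right
        rw [Y1 hE h]
        exact Submodule.comap_mono h1

lemma exists_zz_eq (hE : Exact x y) : ∃ N, ∀ U : J x y, zz hE N U = pm hE.yx U := by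
  have := J_finite (x := x) hE.yx
  have h1 : ∀ U : J x y, ∃ n, pm hE.yx U ≤ zz hE n U := by
    intro U
    rcases zz_claim hE (pm_CC hE.yx U) U with h | h
    · exact h
    · exact absurd (pm_lt hE.yx U) (not_lt_of_ge h)
  choose n hn using h1
  obtain ⟨N, hN⟩ : ∃ N, ∀ U, n U ≤ N := by
    obtain ⟨N, hN⟩ := (Set.finite_range n).bddAbove
    exact ⟨N, fun U => hN ⟨U, rfl⟩⟩
  exact ⟨N, fun U => le_antisymm (zz_le_pm hE N U) ((hn U).trans (zz_mono hE U (hN U)))⟩

variable (κ : Type*) [Field κ] [Algebra κ E] [Module κ M] [IsScalarTower κ E M]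

/-- `κ`-linear version of `x`. -/
abbrev rs (f : M →ₗ[E] M) : M →ₗ[κ] M := f.restrictScalars κ

/-- Existence of a splitting of the canonical filtration compatible with `x` and `y`. -/
theorem exists_splitting (hE : Exact x y) : ∃ P : J x y → (M →ₗ[κ] M),
    (∀ U, ∀ u ∈ U.1, P U u - u ∈ pm hE.yx U) ∧ (∀ U, ∀ u ∈ pm hE.yx U, P U u = 0) ∧
    (∀ U, isX U → ∀ u' ∈ (nxf hE U).1, x (P (nxf hE U) u') = P U (x u')) ∧
    (∀ U, ¬ isX U → ∀ u ∈ U.1, P (nxf hE U) (y u) = y (P U u)) := by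
  classical
  obtain ⟨N, hN⟩ := exists_zz_eq hE
  -- initial family
  have h0 : ∀ U : J x y, ∃ p : M →ₗ[κ] M, (∀ u, p u - u ∈ pm hE.yx U) ∧
      ∀ u ∈ pm hE.yx U, p u = 0 := by
    intro U
    obtain ⟨π, hπ1, hπ2⟩ := exists_proj (κ := κ) ((pm hE.yx U).restrictScalars κ)
    refine ⟨LinearMap.id - π, fun u => ?_, fun u hu => ?_⟩
    · simp only [LinearMap.sub_apply, LinearMap.id_apply, sub_sub_cancel_left]
      exact (pm hE.yx U).neg_mem (hπ1 u)
    · simp only [LinearMap.sub_apply, LinearMap.id_apply]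
      rw [hπ2 u hu, sub_self]
  choose P0 hP01 hP02 using h0
  -- adapted lifts
  have h1 : ∀ U : J x y, ∃ h : M →ₗ[κ] M, ∀ n ≤ N, ∀ q ∈ (zz hE n (nxf hE U)).map x,
      h q ∈ zz hE n (nxf hE U) ∧ x (h q) = q := by
    intro U
    obtain ⟨h, hh⟩ := exists_adapted_lift (κ := κ) (rs κ x)
      (fun n => (zz hE n (nxf hE U)).restrictScalars κ)
      (fun a b hab => zz_mono hE (nxf hE U) hab) N
    exact ⟨h, fun n hn q hq => hh n hn q hq⟩
  choose h hh using h1
  -- selections for `y`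
  have h2 : ∀ U : J x y, ∃ g : M →ₗ[κ] M, ¬ isX U → ∀ u' ∈ (nxf hE U).1,
      g u' ∈ U.1 ∧ u' - y (g u') ∈ pm hE.yx (nxf hE U) := by
    intro U
    let F : (U.1.restrictScalars κ) × ((pm hE.yx (nxf hE U)).restrictScalars κ) →ₗ[κ] M :=
      ((rs κ y).comp ((U.1.restrictScalars κ).subtype.comp (LinearMap.fst κ _ _))) +
      (((pm hE.yx (nxf hE U)).restrictScalars κ).subtype.comp (LinearMap.snd κ _ _))
    have hF : ∀ z, F z = y z.1 + z.2 := fun z => rfl
    obtain ⟨G, hG⟩ := exists_sel F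
    refine ⟨(U.1.restrictScalars κ).subtype.comp ((LinearMap.fst κ _ _).comp G), ?_⟩
    intro hU u' hu'
    obtain ⟨u, hu, hu''⟩ := Y3 hE hU hu'
    have h3 := hG (⟨u, hu⟩, ⟨u' - y u, hu''⟩)
    have h4 : F (⟨u, hu⟩, ⟨u' - y u, hu''⟩) = u' := by rw [hF]; simp
    rw [h4, hF] at h3
    refine ⟨(G u').1.2, ?_⟩
    change u' - y ((G u').1 : M) ∈ _
    have h5 : u' - y ((G u').1 : M) = (G u').2 := by
      rw [sub_eq_iff_eq_add, add_comm]; exact h3.symm
    rw [h5]
    exact (G u').2.2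
  choose g hg using h2
  -- the step
  obtain ⟨step, stepX, stepY⟩ : ∃ step : J x y → (M →ₗ[κ] M) → (M →ₗ[κ] M),
      (∀ U p, isX U → ∀ u', step U p u' = P0 (nxf hE U) u' +
        h U (p (x u') - x (P0 (nxf hE U) u'))) ∧
      (∀ U p, ¬ isX U → ∀ u', step U p u' = y (p (g U u'))) := by
    refine ⟨fun U p =>
      if isX U then P0 (nxf hE U) + (h U).comp (p.comp (rs κ x) - (rs κ x).comp (P0 (nxf hE U)))
      else (rs κ y).comp (p.comp (g U)), ?_, ?_⟩
    · intro U p hU u'
      simp only [if_pos hU]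
      rfl
    · intro U p hU u'
      simp only [if_neg hU]
      rfl
  let valid : J x y → (M →ₗ[κ] M) → Prop := fun U p =>
    (∀ u ∈ U.1, p u - u ∈ pm hE.yx U) ∧ (∀ u ∈ pm hE.yx U, p u = 0)
  have hq : ∀ U, isX U → ∀ p, valid U p → ∀ u' ∈ (nxf hE U).1,
      p (x u') - x (P0 (nxf hE U) u') ∈ (zz hE N (nxf hE U)).map x := by
    intro U hU p hp u' hu'
    rw [hN, ← X2 hE hU]
    have h3 : p (x u') - x (P0 (nxf hE U) u')
        = (p (x u') - x u') - x (P0 (nxf hE U) u' - u') := by rw [map_sub]; abel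
    rw [h3]
    apply Submodule.sub_mem
    · apply hp.1
      rw [X1 hE hU]; exact ⟨u', hu', rfl⟩
    · rw [X2 hE hU]
      exact ⟨_, hP01 _ _, rfl⟩
  have S1 : ∀ U p, valid U p → valid (nxf hE U) (step U p) := by
    intro U p hp
    by_cases hU : isX U
    · constructor
      · intro u' hu'
        rw [stepX U p hU]
        have h4 := (hh U N le_rfl _ (hq U hU p hp u' hu')).1
        rw [hN] at h4
        have h5 : P0 (nxf hE U) u' + h U (p (x u') - x (P0 (nxf hE U) u')) - u'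
          = (P0 (nxf hE U) u' - u') + h U (p (x u') - x (P0 (nxf hE U) u')) := by abel
        rw [h5]
        exact Submodule.add_mem _ (hP01 _ _) h4
      · intro u' hu'
        rw [stepX U p hU, hP02 _ _ hu', map_zero, sub_zero]
        have h6 : x u' ∈ pm hE.yx U := by rw [X2 hE hU]; exact ⟨u', hu', rfl⟩
        rw [hp.2 _ h6, map_zero, add_zero]
    · constructor
      · intro u' hu'
        rw [stepY U p hU]
        obtain ⟨h3, h4⟩ := hg U hU u' hu'
        have h5 : y (p (g U u')) - u' = y (p (g U u') - g U u') - (u' - y (g U u')) := by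
          rw [map_sub]; abel
        rw [h5]
        apply Submodule.sub_mem _ _ h4
        have h6 := hp.1 _ h3
        rwa [Y2 hE hU, Submodule.mem_comap] at h6
      · intro u' hu'
        rw [stepY U p hU]
        obtain ⟨h3, h4⟩ := hg U hU u' ((pm_lt hE.yx _).le hu')
        have h5 : g U u' ∈ pm hE.yx U := by
          rw [Y2 hE hU, Submodule.mem_comap]
          have : y (g U u') = u' - (u' - y (g U u')) := by abel
          rw [this]
          exact Submodule.sub_mem _ hu' h4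
        rw [hp.2 _ h5, map_zero]
  have S2X : ∀ U p, valid U p → isX U → ∀ u' ∈ (nxf hE U).1, x (step U p u') = p (x u') := by
    intro U p hp hU u' hu'
    rw [stepX U p hU, map_add, (hh U N le_rfl _ (hq U hU p hp u' hu')).2]
    abel
  have S2Y : ∀ U p, valid U p → ¬ isX U → ∀ u ∈ U.1, step U p (y u) = y (p u) := by
    intro U p hp hU u hu
    rw [stepY U p hU]
    have hyu : y u ∈ (nxf hE U).1 := by
      have := hu
      rwa [Y1 hE hU, Submodule.mem_comap] at this
    obtain ⟨h3, h4⟩ := hg U hU (y u) hyu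
    have h5 : u - g U (y u) ∈ pm hE.yx U := by
      rw [Y2 hE hU, Submodule.mem_comap, map_sub]
      exact h4
    have h6 := hp.2 _ h5
    rw [map_sub, sub_eq_zero] at h6
    rw [h6]
  have S3 : ∀ U p p' n, n ≤ N → valid U p → valid U p' →
      (∀ u ∈ U.1, p u - p' u ∈ zz hE (n + 1) U) →
      ∀ u' ∈ (nxf hE U).1, step U p u' - step U p' u' ∈ zz hE n (nxf hE U) := by
    intro U p p' n hn hp hp' hd u' hu'
    by_cases hU : isX U
    · rw [stepX U p hU, stepX U p' hU]
      have h3 : P0 (nxf hE U) u' + h U (p (x u') - x (P0 (nxf hE U) u')) -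
          (P0 (nxf hE U) u' + h U (p' (x u') - x (P0 (nxf hE U) u')))
          = h U (p (x u') - p' (x u')) := by
        rw [add_sub_add_left_eq_sub, ← map_sub]
        congr 1; abel
      rw [h3]
      have h4 : p (x u') - p' (x u') ∈ (zz hE n (nxf hE U)).map x := by
        rw [← zz_succ_X hE n hU]
        apply hd
        rw [X1 hE hU]; exact ⟨u', hu', rfl⟩
      exact (hh U n hn _ h4).1
    · rw [stepY U p hU, stepY U p' hU, ← map_sub]
      obtain ⟨h3, h4⟩ := hg U hU u' hu'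
      have h5 := hd _ h3
      rwa [zz_succ_Y hE n hU, Submodule.mem_comap] at h5
  -- iteration
  let nx : J x y ≃ J x y := Equiv.ofBijective (nxf hE) (nxf_bijective hE)
  have hnx : ∀ U, nxf hE (nx.symm U) = U := fun U => nx.apply_symm_apply U
  obtain ⟨Q, hQ0, hQs⟩ : ∃ Q : ℕ → J x y → (M →ₗ[κ] M), Q 0 = P0 ∧
      ∀ k U, Q (k + 1) (nxf hE U) = step U (Q k U) := by
    refine ⟨fun k => Nat.rec P0 (fun _ q U' => step (nx.symm U') (q (nx.symm U'))) k, rfl, ?_⟩
    intro k U
    have h3 : nx.symm (nxf hE U) = U := nx.symm_apply_apply U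
    dsimp only
    rw [h3]
  have hQv : ∀ k U, valid U (Q k U) := by
    intro k
    induction k with
    | zero =>
      intro U
      rw [hQ0]
      exact ⟨fun u _ => hP01 U u, hP02 U⟩
    | succ k ih =>
      intro U
      rw [← hnx U, hQs]
      exact S1 _ _ (ih _)
  have hQd : ∀ k, k ≤ N → ∀ U, ∀ u ∈ U.1, Q (k + 1) U u - Q k U u ∈ zz hE (N - k) U := by
    intro k
    induction k with
    | zero =>
      intro _ U u hu
      rw [Nat.sub_zero, hN]
      have h3 := (hQv 1 U).1 u hu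
      have h4 := (hQv 0 U).1 u hu
      have h5 : Q (0 + 1) U u - Q 0 U u = (Q 1 U u - u) - (Q 0 U u - u) := by
        simp only [zero_add]; abel
      rw [h5]
      exact Submodule.sub_mem _ h3 h4
    | succ k ih =>
      intro hk U u hu
      rw [← hnx U] at hu ⊢
      rw [hQs k, hQs (k + 1)]
      apply S3 _ _ _ (N - (k + 1)) (Nat.sub_le _ _) (hQv _ _) (hQv _ _) _ _ hu
      intro v hv
      have h3 := ih (by omega) (nx.symm U) v hv
      have h4 : N - (k + 1) + 1 = N - k := by omega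
      rw [h4]
      exact h3
  have hfix : ∀ U, ∀ u ∈ U.1, Q (N + 1) U u = Q N U u := by
    intro U u hu
    have h3 := hQd N le_rfl U u hu
    rw [Nat.sub_self] at h3
    exact sub_eq_zero.1 h3
  refine ⟨Q N, fun U => (hQv N U).1, fun U => (hQv N U).2, ?_, ?_⟩
  · intro U hU u' hu'
    rw [← hfix _ u' hu', hQs]
    exact S2X U _ (hQv N U) hU u' hu'
  · intro U hU u hu
    have hyu : y u ∈ (nxf hE U).1 := by
      have := hu
      rwa [Y1 hE hU, Submodule.mem_comap] at this
    rw [← hfix _ _ hyu, hQs]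
    exact S2Y U _ (hQv N U) hU u hu

/-- Independence of the pieces of the splitting. -/
lemma indep (hE : Exact x y) (P : J x y → (M →ₗ[κ] M))
    (ha : ∀ U, ∀ u ∈ U.1, P U u - u ∈ pm hE.yx U) (hb : ∀ U, ∀ u ∈ pm hE.yx U, P U u = 0)
    (d : J x y →₀ M) (hd : ∀ U, ∃ u ∈ U.1, P U u = d U) (hs : (d.sum fun _ m => m) = 0) :
    ∀ U, d U = 0 := by
  classical
  by_contra hcon
  push Not at hcon
  obtain ⟨U1, hU1⟩ := hcon
  have hne : d.support.Nonempty := ⟨U1, Finsupp.mem_support_iff.2 hU1⟩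
  obtain ⟨U0, hU0⟩ := d.support.exists_maximalFor (fun U => U.1) hne
  have hU0s := hU0.prop
  have hmem : ∀ U, d U ∈ U.1 := by
    intro U
    obtain ⟨u, hu, hdu⟩ := hd U
    rw [← hdu]
    have : P U u = (P U u - u) + u := by abel
    rw [this]
    exact U.1.add_mem ((pm_lt hE.yx U).le (ha U u hu)) hu
  have hsum : d U0 + ∑ U ∈ d.support.erase U0, d U = 0 := by
    rw [Finset.add_sum_erase _ _ hU0s]
    exact hs
  have h1 : d U0 ∈ pm hE.yx U0 := by
    rw [eq_neg_of_add_eq_zero_left hsum]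
    apply Submodule.neg_mem
    apply Submodule.sum_mem
    intro U hU
    rw [Finset.mem_erase] at hU
    have hlt : U.1 < U0.1 := by
      rcases U.2.1.total hE.yx _ U0.2.1 with h | h
      · exact lt_of_le_of_ne h (fun h' => hU.1 (Subtype.ext h'))
      · have h3 := hU0.2 hU.2 h
        exact absurd (Subtype.ext (le_antisymm h3 h)) hU.1
    exact le_pm hE.yx U0 U.2.1 hlt (hmem U)
  obtain ⟨u, hu, hdu⟩ := hd U0
  have h2 : u ∈ pm hE.yx U0 := by
    have : u = P U0 u - (P U0 u - u) := by abel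
    rw [this, hdu]
    apply Submodule.sub_mem _ h1
    rw [← hdu]
    exact ha U0 u hu
  rw [hb U0 u h2] at hdu
  exact (Finsupp.mem_support_iff.1 hU0s) hdu.symm

/-- Indecomposability passes to the associated graded object. -/
theorem gr_indec (hE : Exact x y)
    (hind : ∀ P Q : Submodule κ M, IsCompl P Q → (∀ m ∈ P, x m ∈ P) → (∀ m ∈ P, y m ∈ P) →
      (∀ m ∈ Q, x m ∈ Q) → (∀ m ∈ Q, y m ∈ Q) → P = ⊥ ∨ Q = ⊥)
    (β γ : J x y → Submodule κ M)
    (hβle : ∀ U, ∀ m ∈ β U, m ∈ U.1) (hγle : ∀ U, ∀ m ∈ γ U, m ∈ U.1)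
    (hγpm : ∀ U, ∀ m ∈ pm hE.yx U, m ∈ γ U)
    (hsup : ∀ U, ∀ m ∈ U.1, ∃ b ∈ β U, ∃ c ∈ γ U, m = b + c)
    (hinf : ∀ U, ∀ m ∈ β U, m ∈ γ U → m ∈ pm hE.yx U)
    (hβX : ∀ U, isX U → ∀ b ∈ β (nxf hE U), x b ∈ β U)
    (hβY : ∀ U, ¬ isX U → ∀ b ∈ β U, y b ∈ β (nxf hE U))
    (hγX : ∀ U, isX U → ∀ b ∈ γ (nxf hE U), x b ∈ γ U)
    (hγY : ∀ U, ¬ isX U → ∀ b ∈ γ U, y b ∈ γ (nxf hE U)) :
    (∀ U, ∀ m ∈ β U, m ∈ pm hE.yx U) ∨ (∀ U, ∀ m ∈ γ U, m ∈ pm hE.yx U) := by
  classical
  obtain ⟨P, ha, hb, hc, hd⟩ := exists_splitting κ hE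
  -- stability, proved once
  have stabX : ∀ β : J x y → Submodule κ M, (∀ U, ∀ m ∈ β U, m ∈ U.1) →
      (∀ U, isX U → ∀ b ∈ β (nxf hE U), x b ∈ β U) →
      ∀ m ∈ ⨆ U, (β U).map (P U), x m ∈ ⨆ U, (β U).map (P U) := by
    intro β hle hX m hm
    have h1 : (⨆ U, (β U).map (P U)) ≤ (⨆ U, (β U).map (P U)).comap (rs κ x) := by
      apply iSup_le
      rintro U' _ ⟨b, hb', rfl⟩
      obtain ⟨U, rfl⟩ := (nxf_bijective hE).2 U'
      change x (P (nxf hE U) b) ∈ ⨆ U, (β U).map (P U)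
      by_cases hU : isX U
      · rw [hc U hU b (hle _ b hb')]
        exact Submodule.mem_iSup_of_mem U ⟨x b, hX U hU b hb', rfl⟩
      · obtain ⟨u, hu, hu'⟩ := Y3 hE hU (hle _ b hb')
        have h2 := hb _ _ hu'
        rw [map_sub, sub_eq_zero] at h2
        rw [h2, hd U hU u hu, hE.xy]
        exact Submodule.zero_mem _
    exact h1 hm
  have stabY : ∀ β : J x y → Submodule κ M, (∀ U, ∀ m ∈ β U, m ∈ U.1) →
      (∀ U, ¬ isX U → ∀ b ∈ β U, y b ∈ β (nxf hE U)) →
      ∀ m ∈ ⨆ U, (β U).map (P U), y m ∈ ⨆ U, (β U).map (P U) := by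
    intro β hle hY m hm
    have h1 : (⨆ U, (β U).map (P U)) ≤ (⨆ U, (β U).map (P U)).comap (rs κ y) := by
      apply iSup_le
      rintro U _ ⟨b, hb', rfl⟩
      change y (P U b) ∈ ⨆ U, (β U).map (P U)
      by_cases hU : isX U
      · have h2 := hle U b hb'
        rw [X1 hE hU] at h2
        obtain ⟨u', hu', rfl⟩ := h2
        rw [← hc U hU u' hu', hE.yx]
        exact Submodule.zero_mem _
      · rw [← hd U hU b (hle U b hb')]
        exact Submodule.mem_iSup_of_mem (nxf hE U) ⟨y b, hY U hU b hb', rfl⟩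
    exact h1 hm
  have hcod : Codisjoint (⨆ U, (β U).map (P U)) (⨆ U, (γ U).map (P U)) := by
    rw [codisjoint_iff, eq_top_iff]
    have key : ∀ V : Submodule E M, CC x y V → V.restrictScalars κ ≤
        (⨆ U, (β U).map (P U)) ⊔ (⨆ U, (γ U).map (P U)) := by
      intro V
      induction V using WellFoundedLT.induction with
      | ind V ih =>
        intro hV
        by_cases hV0 : V = ⊥
        · subst hV0
          intro m hm
          rw [Submodule.restrictScalars_mem, Submodule.mem_bot] at hm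
          rw [hm]
          exact Submodule.zero_mem _
        · let U : J x y := ⟨V, hV, hV0⟩
          intro m hm
          have hm' : m ∈ U.1 := hm
          obtain ⟨b, hbb, c, hcc, hbc⟩ := hsup U m hm'
          have h1 : m = (P U b + P U c) - (P U m - m) := by
            rw [← map_add, ← hbc]; abel
          rw [h1]
          apply Submodule.sub_mem
          · exact Submodule.add_mem_sup (Submodule.mem_iSup_of_mem U ⟨b, hbb, rfl⟩)
              (Submodule.mem_iSup_of_mem U ⟨c, hcc, rfl⟩)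
          · exact ih (pm hE.yx U) (pm_lt hE.yx U) (pm_CC hE.yx U) (ha U m hm')
    intro m _
    exact key ⊤ CC.top trivial
  have hdis : Disjoint (⨆ U, (β U).map (P U)) (⨆ U, (γ U).map (P U)) := by
    rw [Submodule.disjoint_def]
    intro m hm1 hm2
    rw [Submodule.mem_iSup_iff_exists_finsupp] at hm1 hm2
    obtain ⟨f, hf, hfs⟩ := hm1
    obtain ⟨g, hg, hgs⟩ := hm2
    have h1 := indep κ hE P ha hb (f - g) (by
      intro U
      obtain ⟨b, hb', hbf⟩ := hf U
      obtain ⟨c, hc', hcg⟩ := hg U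
      refine ⟨b - c, U.1.sub_mem (hβle U b hb') (hγle U c hc'), ?_⟩
      rw [map_sub, hbf, hcg, Finsupp.sub_apply]) (by
      rw [Finsupp.sum_sub_index (by intros; rfl), hfs, hgs, sub_self])
    have h2 : ∀ U, f U = 0 := by
      intro U
      obtain ⟨b, hb', hbf⟩ := hf U
      obtain ⟨c, hc', hcg⟩ := hg U
      have h3 := h1 U
      rw [Finsupp.sub_apply, ← hbf, ← hcg, ← map_sub] at h3
      have h4 := ha U (b - c) (U.1.sub_mem (hβle U b hb') (hγle U c hc'))
      rw [h3, zero_sub, neg_sub] at h4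
      have h5 : b ∈ γ U := by
        have : b = c - (c - b) := by abel
        rw [this]
        exact (γ U).sub_mem hc' (hγpm U _ h4)
      rw [← hbf]
      exact hb U b (hinf U b hb' h5)
    rw [← hfs]
    have : f = 0 := Finsupp.ext h2
    rw [this, Finsupp.sum_zero_index]
  have fin : ∀ β : J x y → Submodule κ M, (∀ U, ∀ m ∈ β U, m ∈ U.1) →
      (⨆ U, (β U).map (P U)) = ⊥ → ∀ U, ∀ m ∈ β U, m ∈ pm hE.yx U := by
    intro β hle h U m hm
    have h1 : P U m ∈ ⨆ U, (β U).map (P U) := Submodule.mem_iSup_of_mem U ⟨m, hm, rfl⟩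
    rw [h, Submodule.mem_bot] at h1
    have h2 := ha U m (hle U m hm)
    rw [h1, zero_sub] at h2
    simpa using Submodule.neg_mem _ h2
  rcases hind _ _ ⟨hdis, hcod⟩ (stabX β hβle hβX) (stabY β hβle hβY) (stabX γ hγle hγX)
    (stabY γ hγle hγY) with h | h
  · exact Or.inl (fin β hβle h)
  · exact Or.inr (fin γ hγle h)

end Pool.Agent.Helper32.Nodal
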