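import Mathlib
import Pool.Agent.Helper32.Nodal.Split
import Pool.Agent.Helper32.Nodal.EndoLemma

namespace Pool.Agent.Helper32.Nodal

set_option linter.unusedSectionVars false

variable {E M : Type*} [Ring E] [AddCommGroup M] [Module E M]
variable {x y : M →ₗ[E] M} [IsArtinian E M] [IsNoetherian E M]

/-- The graded piece of the chain at `U`. -/
abbrev Gr (hE : Exact x y) (U : J x y) : Type _ := U.1 ⧸ ((pm hE.yx U).comap U.1.subtype)

/-- The class of an element of `U` in the graded piece. -/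
noncomputable def cls (hE : Exact x y) (U : J x y) (m : M) (hm : m ∈ U.1) : Gr hE U :=
  Submodule.Quotient.mk ⟨m, hm⟩

lemma cls_eq_iff {hE : Exact x y} {U : J x y} {m m' : M} {hm : m ∈ U.1} {hm' : m' ∈ U.1} :
    cls hE U m hm = cls hE U m' hm' ↔ m - m' ∈ pm hE.yx U := by
  rw [cls, cls, Submodule.Quotient.eq]
  rfl

lemma cls_eq_zero {hE : Exact x y} {U : J x y} {m : M} {hm : m ∈ U.1} :
    cls hE U m hm = 0 ↔ m ∈ pm hE.yx U := by
  rw [cls, Submodule.Quotient.mk_eq_zero]
  rfl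

lemma cls_surj {hE : Exact x y} {U : J x y} (v : Gr hE U) : ∃ m, ∃ hm, cls hE U m hm = v := by
  obtain ⟨⟨m, hm⟩, rfl⟩ := Submodule.Quotient.mk_surjective _ v
  exact ⟨m, hm, rfl⟩

lemma cls_add {hE : Exact x y} {U : J x y} {m m' : M} {hm : m ∈ U.1} {hm' : m' ∈ U.1} :
    cls hE U m hm + cls hE U m' hm' = cls hE U (m + m') (U.1.add_mem hm hm') := rfl

lemma cls_smul {hE : Exact x y} {U : J x y} (a : E) {m : M} {hm : m ∈ U.1} :
    a • cls hE U m hm = cls hE U (a • m) (U.1.smul_mem a hm) := rfl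

lemma exists_tau (hE : Exact x y) (U : J x y) : ∃ t : Gr hE U ≃ₗ[E] Gr hE (nxf hE U),
    (isX U → ∀ u' (hu' : u' ∈ (nxf hE U).1) (h : x u' ∈ U.1),
      t (cls hE U (x u') h) = cls hE (nxf hE U) u' hu') ∧
    (¬ isX U → ∀ u (hu : u ∈ U.1) (h : y u ∈ (nxf hE U).1),
      t (cls hE U u hu) = cls hE (nxf hE U) (y u) h) := by
  by_cases hU : isX U
  · have hmaps : ∀ u' ∈ (nxf hE U).1, x u' ∈ U.1 := by
      intro u' hu'
      rw [X1 hE hU]; exact ⟨u', hu', rfl⟩
    let f : Gr hE (nxf hE U) →ₗ[E] Gr hE U :=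
      Submodule.mapQ _ _ (x.restrict hmaps) (by
        rintro ⟨u', hu'⟩ h
        have h' : u' ∈ pm hE.yx (nxf hE U) := h
        change x u' ∈ pm hE.yx U
        rw [X2 hE hU]; exact ⟨u', h', rfl⟩)
    have hf : ∀ u' hu', f (cls hE _ u' hu') = cls hE U (x u') (hmaps u' hu') := fun _ _ => rfl
    have hbij : Function.Bijective f := by
      constructor
      · rw [injective_iff_map_eq_zero]
        intro v hv
        obtain ⟨m, hm, rfl⟩ := cls_surj v
        rw [hf, cls_eq_zero] at hv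
        rw [cls_eq_zero]
        exact X3 hE hU hm hv
      · intro v
        obtain ⟨m, hm, rfl⟩ := cls_surj v
        have hm' := hm
        rw [X1 hE hU] at hm'
        obtain ⟨u', hu', rfl⟩ := hm'
        exact ⟨cls hE _ u' hu', rfl⟩
    refine ⟨(LinearEquiv.ofBijective f hbij).symm, ?_, fun h => absurd hU h⟩
    intro _ u' hu' h
    rw [LinearEquiv.symm_apply_eq]
    rfl
  · have hmaps : ∀ u ∈ U.1, y u ∈ (nxf hE U).1 := by
      intro u hu
      have := hu
      rwa [Y1 hE hU, Submodule.mem_comap] at this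
    let f : Gr hE U →ₗ[E] Gr hE (nxf hE U) :=
      Submodule.mapQ _ _ (y.restrict hmaps) (by
        rintro ⟨u, hu⟩ h
        have h' : u ∈ pm hE.yx U := h
        rw [Y2 hE hU] at h'
        exact h')
    have hf : ∀ u hu, f (cls hE _ u hu) = cls hE _ (y u) (hmaps u hu) := fun _ _ => rfl
    have hbij : Function.Bijective f := by
      constructor
      · rw [injective_iff_map_eq_zero]
        intro v hv
        obtain ⟨m, hm, rfl⟩ := cls_surj v
        rw [hf, cls_eq_zero] at hv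
        rw [cls_eq_zero, Y2 hE hU]
        exact hv
      · intro v
        obtain ⟨m, hm, rfl⟩ := cls_surj v
        obtain ⟨u, hu, hu'⟩ := Y3 hE hU hm
        refine ⟨cls hE _ u hu, ?_⟩
        rw [hf, eq_comm, cls_eq_iff]
        exact hu'
    exact ⟨LinearEquiv.ofBijective f hbij, fun h => absurd h hU, fun _ u hu h => rfl⟩

noncomputable def tau (hE : Exact x y) (U : J x y) : Gr hE U ≃ₗ[E] Gr hE (nxf hE U) :=
  (exists_tau hE U).choose

lemma tau_X (hE : Exact x y) {U : J x y} (hU : isX U) {u' : M} (hu' : u' ∈ (nxf hE U).1)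
    (h : x u' ∈ U.1) : tau hE U (cls hE U (x u') h) = cls hE (nxf hE U) u' hu' :=
  (exists_tau hE U).choose_spec.1 hU u' hu' h

lemma tau_Y (hE : Exact x y) {U : J x y} (hU : ¬ isX U) {u : M} (hu : u ∈ U.1)
    (h : y u ∈ (nxf hE U).1) : tau hE U (cls hE U u hu) = cls hE (nxf hE U) (y u) h :=
  (exists_tau hE U).choose_spec.2 hU u hu h

/-- The orbit of `U0`. -/
noncomputable def seq (hE : Exact x y) (U0 : J x y) : ℕ → J x y
  | 0 => U0
  | n + 1 => nxf hE (seq hE U0 n)

lemma seq_eq_iterate (hE : Exact x y) (U0 : J x y) (n : ℕ) :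
    seq hE U0 n = (nxf hE)^[n] U0 := by
  induction n with
  | zero => rfl
  | succ n ih => rw [seq, ih, Function.iterate_succ_apply']

/-- Transport along the orbit. -/
noncomputable def Th (hE : Exact x y) (U0 : J x y) :
    ∀ n : ℕ, Gr hE U0 ≃ₗ[E] Gr hE (seq hE U0 n)
  | 0 => LinearEquiv.refl E _
  | n + 1 => (Th hE U0 n).trans (tau hE (seq hE U0 n))

lemma Th_succ (hE : Exact x y) (U0 : J x y) (n : ℕ) (v : Gr hE U0) :
    Th hE U0 (n + 1) v = tau hE (seq hE U0 n) (Th hE U0 n v) := rfl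

/-- Identification of graded pieces at equal indices. -/
lemma exists_cast (hE : Exact x y) {U W : J x y} (h : U = W) :
    ∃ c : Gr hE U ≃ₗ[E] Gr hE W, ∀ m (hm : m ∈ U.1) (hm' : m ∈ W.1),
      c (cls hE U m hm) = cls hE W m hm' := by
  subst h
  exact ⟨LinearEquiv.refl E _, fun _ _ _ => rfl⟩

variable (κ : Type*) [Field κ] [Algebra κ E] [Module κ M] [IsScalarTower κ E M]

/-- The subspace of `seq n` transported from a subspace of the graded piece at `U0`. -/
def BB (hE : Exact x y) (U0 : J x y) (V : Submodule κ (Gr hE U0)) (n : ℕ) : Submodule κ M where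
  carrier := {m | ∃ v ∈ V, ∃ hm : m ∈ (seq hE U0 n).1, Th hE U0 n v = cls hE _ m hm}
  add_mem' := by
    rintro a b ⟨v, hv, ha, hva⟩ ⟨w, hw, hb, hwb⟩
    refine ⟨v + w, V.add_mem hv hw, Submodule.add_mem _ ha hb, ?_⟩
    rw [map_add, hva, hwb]; rfl
  zero_mem' := ⟨0, V.zero_mem, Submodule.zero_mem _, by rw [map_zero]; rfl⟩
  smul_mem' := by
    rintro c a ⟨v, hv, ha, hva⟩
    refine ⟨c • v, V.smul_mem c hv,
      ((seq hE U0 n).1.restrictScalars κ).smul_mem c ha, ?_⟩
    have h1 : Th hE U0 n (c • v) = c • Th hE U0 n v :=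
      ((Th hE U0 n).restrictScalars κ).map_smul c v
    rw [h1, hva]; rfl

variable {κ}

lemma mem_BB {hE : Exact x y} {U0 : J x y} {V : Submodule κ (Gr hE U0)} {n : ℕ} {m : M} :
    m ∈ BB κ hE U0 V n ↔ ∃ v ∈ V, ∃ hm : m ∈ (seq hE U0 n).1, Th hE U0 n v = cls hE _ m hm :=
  Iff.rfl

lemma BB_le {hE : Exact x y} {U0 : J x y} {V : Submodule κ (Gr hE U0)} {n : ℕ} {m : M}
    (h : m ∈ BB κ hE U0 V n) : m ∈ (seq hE U0 n).1 := by
  obtain ⟨_, _, hm, _⟩ := h
  exact hm

lemma BB_succ_X {hE : Exact x y} {U0 : J x y} {V : Submodule κ (Gr hE U0)} {n : ℕ}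
    (hU : isX (seq hE U0 n)) {m : M} : m ∈ BB κ hE U0 V (n + 1) ↔
      m ∈ (seq hE U0 (n + 1)).1 ∧ x m ∈ BB κ hE U0 V n := by
  constructor
  · rintro ⟨v, hv, hm, h⟩
    have hxm : x m ∈ (seq hE U0 n).1 := by
      rw [X1 hE hU]; exact ⟨m, hm, rfl⟩
    refine ⟨hm, v, hv, hxm, ?_⟩
    rw [Th_succ] at h
    apply (tau hE (seq hE U0 n)).injective
    rw [h]
    exact (tau_X hE hU hm hxm).symm
  · rintro ⟨hm, v, hv, hxm, h⟩
    refine ⟨v, hv, hm, ?_⟩
    rw [Th_succ, h]
    exact tau_X hE hU hm hxm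

lemma BB_succ_Y {hE : Exact x y} {U0 : J x y} {V : Submodule κ (Gr hE U0)} {n : ℕ}
    (hU : ¬ isX (seq hE U0 n)) {m : M} : m ∈ BB κ hE U0 V (n + 1) ↔
      m ∈ (seq hE U0 (n + 1)).1 ∧ ∃ b ∈ BB κ hE U0 V n,
        m - y b ∈ pm hE.yx (seq hE U0 (n + 1)) := by
  constructor
  · rintro ⟨v, hv, hm, h⟩
    obtain ⟨b, hb, hvb⟩ := cls_surj (Th hE U0 n v)
    have hyb : y b ∈ (nxf hE (seq hE U0 n)).1 := by
      have := hb
      rwa [Y1 hE hU, Submodule.mem_comap] at this
    refine ⟨hm, b, ⟨v, hv, hb, hvb.symm⟩, ?_⟩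
    rw [Th_succ, ← hvb] at h
    have h2 := (tau_Y hE hU hb hyb).symm.trans h
    exact cls_eq_iff.1 h2.symm
  · rintro ⟨hm, b, ⟨v, hv, hb, hvb⟩, h⟩
    have hyb : y b ∈ (nxf hE (seq hE U0 n)).1 := by
      have := hb
      rwa [Y1 hE hU, Submodule.mem_comap] at this
    refine ⟨v, hv, hm, ?_⟩
    rw [Th_succ, hvb, tau_Y hE hU hb hyb]
    exact (cls_eq_iff.2 h).symm

/-- The subspaces only depend on the position, once they close up after one period. -/
lemma BB_succ_congr {hE : Exact x y} {U0 : J x y} {V : Submodule κ (Gr hE U0)} {a b : ℕ}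
    (h : seq hE U0 a = seq hE U0 b) (hB : BB κ hE U0 V a = BB κ hE U0 V b) :
    BB κ hE U0 V (a + 1) = BB κ hE U0 V (b + 1) := by
  have h1 : seq hE U0 (a + 1) = seq hE U0 (b + 1) := by
    rw [seq, seq, h]
  ext m
  by_cases hU : isX (seq hE U0 a)
  · have hU' : isX (seq hE U0 b) := h ▸ hU
    rw [BB_succ_X hU, BB_succ_X hU', h1, hB]
  · have hU' : ¬ isX (seq hE U0 b) := h ▸ hU
    rw [BB_succ_Y hU, BB_succ_Y hU', h1, hB]

lemma BB_shift {hE : Exact x y} {U0 : J x y} {V : Submodule κ (Gr hE U0)} {p : ℕ}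
    (h : seq hE U0 p = seq hE U0 0) (hB : BB κ hE U0 V p = BB κ hE U0 V 0) (n : ℕ) :
    seq hE U0 (n + p) = seq hE U0 n ∧ BB κ hE U0 V (n + p) = BB κ hE U0 V n := by
  induction n with
  | zero => rw [zero_add]; exact ⟨h, hB⟩
  | succ n ih =>
    have e : n + 1 + p = (n + p) + 1 := by ring
    rw [e]
    exact ⟨by rw [seq, seq, ih.1], BB_succ_congr ih.1 ih.2⟩

lemma BB_shift_mul {hE : Exact x y} {U0 : J x y} {V : Submodule κ (Gr hE U0)} {p : ℕ}
    (h : seq hE U0 p = seq hE U0 0) (hB : BB κ hE U0 V p = BB κ hE U0 V 0) (n k : ℕ) :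
    BB κ hE U0 V (n + k * p) = BB κ hE U0 V n := by
  induction k with
  | zero => simp
  | succ k ih =>
    have e : n + (k + 1) * p = (n + k * p) + p := by ring
    rw [e, (BB_shift h hB _).2, ih]

lemma BB_eq_of_seq_eq {hE : Exact x y} {U0 : J x y} {V : Submodule κ (Gr hE U0)}
    (hB : BB κ hE U0 V (Function.minimalPeriod (nxf hE) U0) = BB κ hE U0 V 0)
    {a b : ℕ} (hab : a ≤ b) (h : seq hE U0 a = seq hE U0 b) :
    BB κ hE U0 V a = BB κ hE U0 V b := by
  have hp : seq hE U0 (Function.minimalPeriod (nxf hE) U0) = seq hE U0 0 := by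
    rw [seq_eq_iterate, Function.iterate_minimalPeriod]; rfl
  obtain ⟨d, rfl⟩ := Nat.exists_eq_add_of_le hab
  have hd : Function.minimalPeriod (nxf hE) U0 ∣ d := by
    apply Function.IsPeriodicPt.minimalPeriod_dvd
    rw [seq_eq_iterate, seq_eq_iterate, Function.iterate_add_apply] at h
    exact ((nxf_bijective hE).1.iterate a h).symm
  obtain ⟨k, rfl⟩ := hd
  rw [mul_comm, BB_shift_mul hp hB]

lemma BB_eq_of_seq_eq' {hE : Exact x y} {U0 : J x y} {V : Submodule κ (Gr hE U0)}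
    (hB : BB κ hE U0 V (Function.minimalPeriod (nxf hE) U0) = BB κ hE U0 V 0)
    {a b : ℕ} (h : seq hE U0 a = seq hE U0 b) :
    BB κ hE U0 V a = BB κ hE U0 V b := by
  rcases Nat.le_total a b with hab | hab
  · exact BB_eq_of_seq_eq hB hab h
  · exact (BB_eq_of_seq_eq hB hab h.symm).symm

lemma minimalPeriod_pos (hE : Exact x y) (U0 : J x y) :
    0 < Function.minimalPeriod (nxf hE) U0 := by
  have := J_finite (x := x) hE.yx
  have := Fintype.ofFinite (J x y)
  exact Function.minimalPeriod_pos_of_mem_periodicPts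
    ((nxf_bijective hE).1.mem_periodicPts U0)

/-- There is a single orbit. -/
lemma single_orbit (κ : Type*) [Field κ] [Algebra κ E] [Module κ M] [IsScalarTower κ E M]
    (hE : Exact x y)
    (hind : ∀ P Q : Submodule κ M, IsCompl P Q → (∀ m ∈ P, x m ∈ P) → (∀ m ∈ P, y m ∈ P) →
      (∀ m ∈ Q, x m ∈ Q) → (∀ m ∈ Q, y m ∈ Q) → P = ⊥ ∨ Q = ⊥) (U0 : J x y) :
    ∀ U, ∃ n, seq hE U0 n = U := by
  classical
  let O : J x y → Prop := fun U => ∃ n, seq hE U0 n = U
  have hO : ∀ U, O (nxf hE U) ↔ O U := by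
    intro U
    constructor
    · rintro ⟨n, hn⟩
      cases n with
      | zero =>
        have hp := minimalPeriod_pos hE U0
        obtain ⟨p, hp'⟩ : ∃ p, Function.minimalPeriod (nxf hE) U0 = p + 1 :=
          ⟨_, (Nat.succ_pred_eq_of_pos hp).symm⟩
        refine ⟨p, (nxf_bijective hE).1 ?_⟩
        rw [← hn]
        change seq hE U0 (p + 1) = U0
        rw [← hp', seq_eq_iterate, Function.iterate_minimalPeriod]
      | succ n => exact ⟨n, (nxf_bijective hE).1 hn⟩
    · rintro ⟨n, rfl⟩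
      exact ⟨n + 1, rfl⟩
  have hb := gr_indec κ hE hind
    (fun U => if O U then U.1.restrictScalars κ else (pm hE.yx U).restrictScalars κ)
    (fun U => if O U then (pm hE.yx U).restrictScalars κ else U.1.restrictScalars κ)
    (by
      intro U m hm
      split_ifs at hm with h
      · exact hm
      · exact (pm_lt hE.yx U).le hm)
    (by
      intro U m hm
      split_ifs at hm with h
      · exact (pm_lt hE.yx U).le hm
      · exact hm)
    (by
      intro U m hm
      split_ifs with h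
      · exact hm
      · exact (pm_lt hE.yx U).le hm)
    (by
      intro U m hm
      split_ifs with h
      · exact ⟨m, hm, 0, Submodule.zero_mem _, by simp⟩
      · exact ⟨0, Submodule.zero_mem _, m, hm, by simp⟩)
    (by
      intro U m hm hm'
      split_ifs at hm hm' with h
      · exact hm'
      · exact hm)
    (by
      intro U hU b hb
      by_cases h : O U
      · have h' := (hO U).2 h
        simp only [if_pos h, if_pos h'] at hb ⊢
        change x b ∈ U.1
        rw [X1 hE hU]; exact ⟨b, hb, rfl⟩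
      · have h' : ¬ O (nxf hE U) := fun h1 => h ((hO U).1 h1)
        simp only [if_neg h, if_neg h'] at hb ⊢
        change x b ∈ pm hE.yx U
        rw [X2 hE hU]; exact ⟨b, hb, rfl⟩)
    (by
      intro U hU b hb
      by_cases h : O U
      · have h' := (hO U).2 h
        simp only [if_pos h, if_pos h'] at hb ⊢
        have hb' : b ∈ U.1 := hb
        rw [Y1 hE hU] at hb'
        exact hb'
      · have h' : ¬ O (nxf hE U) := fun h1 => h ((hO U).1 h1)
        simp only [if_neg h, if_neg h'] at hb ⊢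
        have hb' : b ∈ pm hE.yx U := hb
        rw [Y2 hE hU] at hb'
        exact hb')
    (by
      intro U hU b hb
      by_cases h : O U
      · have h' := (hO U).2 h
        simp only [if_pos h, if_pos h'] at hb ⊢
        change x b ∈ pm hE.yx U
        rw [X2 hE hU]; exact ⟨b, hb, rfl⟩
      · have h' : ¬ O (nxf hE U) := fun h1 => h ((hO U).1 h1)
        simp only [if_neg h, if_neg h'] at hb ⊢
        change x b ∈ U.1
        rw [X1 hE hU]; exact ⟨b, hb, rfl⟩)
    (by
      intro U hU b hb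
      by_cases h : O U
      · have h' := (hO U).2 h
        simp only [if_pos h, if_pos h'] at hb ⊢
        have hb' : b ∈ pm hE.yx U := hb
        rw [Y2 hE hU] at hb'
        exact hb'
      · have h' : ¬ O (nxf hE U) := fun h1 => h ((hO U).1 h1)
        simp only [if_neg h, if_neg h'] at hb ⊢
        have hb' : b ∈ U.1 := hb
        rw [Y1 hE hU] at hb'
        exact hb')
  rcases hb with h | h
  · exfalso
    have hO0 : O U0 := ⟨0, rfl⟩
    have h1 := h U0
    simp only [if_pos hO0] at h1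
    exact absurd (pm_lt hE.yx U0) (not_lt_of_ge (fun m hm => h1 m hm))
  · intro U
    by_contra hcon
    have h1 := h U
    have hcon' : ¬ O U := hcon
    simp only [if_neg hcon'] at h1
    exact absurd (pm_lt hE.yx U) (not_lt_of_ge (fun m hm => h1 m hm))

/-- The return map. -/
lemma exists_return (hE : Exact x y) (U0 : J x y) : ∃ T : Gr hE U0 ≃ₗ[E] Gr hE U0,
    ∀ v m (hm : m ∈ U0.1) (hm' : m ∈ (seq hE U0 (Function.minimalPeriod (nxf hE) U0)).1),
      Th hE U0 (Function.minimalPeriod (nxf hE) U0) v = cls hE _ m hm' ↔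
        T v = cls hE U0 m hm := by
  have hp : seq hE U0 (Function.minimalPeriod (nxf hE) U0) = U0 := by
    rw [seq_eq_iterate, Function.iterate_minimalPeriod]
  obtain ⟨c, hc⟩ := exists_cast hE hp
  refine ⟨(Th hE U0 _).trans c, ?_⟩
  intro v m hm hm'
  rw [LinearEquiv.trans_apply, ← hc m hm' hm, c.injective.eq_iff]

/-- Indecomposability for the return map. -/
lemma return_indec (κ : Type*) [Field κ] [Algebra κ E] [Module κ M] [IsScalarTower κ E M]
    (hE : Exact x y)
    (hind : ∀ P Q : Submodule κ M, IsCompl P Q → (∀ m ∈ P, x m ∈ P) → (∀ m ∈ P, y m ∈ P) →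
      (∀ m ∈ Q, x m ∈ Q) → (∀ m ∈ Q, y m ∈ Q) → P = ⊥ ∨ Q = ⊥) (U0 : J x y)
    (T : Gr hE U0 ≃ₗ[E] Gr hE U0)
    (hT : ∀ v m (hm : m ∈ U0.1)
      (hm' : m ∈ (seq hE U0 (Function.minimalPeriod (nxf hE) U0)).1),
      Th hE U0 (Function.minimalPeriod (nxf hE) U0) v = cls hE _ m hm' ↔
        T v = cls hE U0 m hm)
    (V W : Submodule κ (Gr hE U0)) (hVW : IsCompl V W) (hV : ∀ v ∈ V, T v ∈ V)
    (hW : ∀ v ∈ W, T v ∈ W) : V = ⊥ ∨ W = ⊥ := by
  classical
  have horb := single_orbit κ hE hind U0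
  choose n hn using horb
  set p := Function.minimalPeriod (nxf hE) U0 with hpdef
  have hp : seq hE U0 p = U0 := by
    rw [seq_eq_iterate, hpdef, Function.iterate_minimalPeriod]
  -- closing up
  have close : ∀ V W : Submodule κ (Gr hE U0), IsCompl V W → (∀ v ∈ V, T v ∈ V) →
      (∀ v ∈ W, T v ∈ W) → BB κ hE U0 V p = BB κ hE U0 V 0 := by
    intro V W hVW hV hW
    ext m
    constructor
    · rintro ⟨v, hv, hm, h⟩
      have hm0 : m ∈ U0.1 := by rwa [hp] at hm
      have h1 := (hT v m hm0 hm).1 h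
      exact ⟨T v, hV v hv, hm0, h1⟩
    · rintro ⟨v, hv, hm, h⟩
      have hm0 : m ∈ U0.1 := hm
      have hmp : m ∈ (seq hE U0 p).1 := by rw [hp]; exact hm0
      obtain ⟨w, hw⟩ := T.surjective v
      have hwV : w ∈ V := by
        have h2 : w ∈ V ⊔ W := by rw [hVW.sup_eq_top]; trivial
        obtain ⟨w1, hw1, w2, hw2, rfl⟩ := Submodule.mem_sup.1 h2
        rw [map_add] at hw
        have h3 : T w2 ∈ V := by
          have : T w2 = v - T w1 := by rw [← hw]; abel
          rw [this]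
          exact V.sub_mem hv (hV w1 hw1)
        have h4 := Submodule.disjoint_def.1 hVW.disjoint _ h3 (hW w2 hw2)
        have h5 : w2 = 0 := T.injective (by rw [h4, map_zero])
        rw [h5, add_zero]
        exact hw1
      refine ⟨w, hwV, hmp, ?_⟩
      rw [hT w m hm0 hmp, hw]
      exact h
  have closeV := close V W hVW hV hW
  have closeW := close W V hVW.symm hW hV
  have eqV : ∀ U, BB κ hE U0 V (n (nxf hE U)) = BB κ hE U0 V (n U + 1) := by
    intro U
    apply BB_eq_of_seq_eq' closeV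
    rw [hn, seq, hn]
  have eqW : ∀ U, BB κ hE U0 W (n (nxf hE U)) = BB κ hE U0 W (n U + 1) := by
    intro U
    apply BB_eq_of_seq_eq' closeW
    rw [hn, seq, hn]
  have stX : ∀ V : Submodule κ (Gr hE U0),
      (∀ U, BB κ hE U0 V (n (nxf hE U)) = BB κ hE U0 V (n U + 1)) →
      ∀ U, isX U → ∀ b ∈ BB κ hE U0 V (n (nxf hE U)), x b ∈ BB κ hE U0 V (n U) := by
    intro V eqV U hU b hb
    rw [eqV] at hb
    have hU' : isX (seq hE U0 (n U)) := by rw [hn]; exact hU
    exact ((BB_succ_X hU').1 hb).2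
  have stY : ∀ V : Submodule κ (Gr hE U0),
      (∀ U, BB κ hE U0 V (n (nxf hE U)) = BB κ hE U0 V (n U + 1)) →
      ∀ U, ¬ isX U → ∀ b ∈ BB κ hE U0 V (n U), y b ∈ BB κ hE U0 V (n (nxf hE U)) := by
    intro V eqV U hU b hb
    rw [eqV]
    have hU' : ¬ isX (seq hE U0 (n U)) := by rw [hn]; exact hU
    rw [BB_succ_Y hU']
    refine ⟨?_, b, hb, by rw [sub_self]; exact Submodule.zero_mem _⟩
    have h1 := BB_le hb
    rw [Y1 hE hU'] at h1
    exact h1
  have hb := gr_indec κ hE hind (fun U => BB κ hE U0 V (n U)) (fun U => BB κ hE U0 W (n U))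
    (by intro U m hm; have := BB_le hm; rwa [hn] at this)
    (by intro U m hm; have := BB_le hm; rwa [hn] at this)
    (by
      intro U m hm
      have hm' : m ∈ pm hE.yx (seq hE U0 (n U)) := by rw [hn]; exact hm
      refine ⟨0, W.zero_mem, (pm_lt hE.yx _).le hm', ?_⟩
      rw [map_zero, eq_comm, cls_eq_zero]
      exact hm')
    (by
      intro U m hm
      have hm' : m ∈ (seq hE U0 (n U)).1 := by rw [hn]; exact hm
      obtain ⟨v, hv⟩ := (Th hE U0 (n U)).surjective (cls hE _ m hm')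
      have h2 : v ∈ V ⊔ W := by rw [hVW.sup_eq_top]; trivial
      obtain ⟨v1, hv1, v2, hv2, rfl⟩ := Submodule.mem_sup.1 h2
      obtain ⟨b, hb, hvb⟩ := cls_surj (Th hE U0 (n U) v1)
      refine ⟨b, ⟨v1, hv1, hb, hvb.symm⟩, m - b, ⟨v2, hv2, Submodule.sub_mem _ hm' hb, ?_⟩,
        by abel⟩
      have h3 : Th hE U0 (n U) v2 = cls hE _ m hm' - cls hE _ b hb := by
        rw [hvb, ← hv, map_add]; abel
      rw [h3]; rfl)
    (by
      rintro U m ⟨v, hv, hm, hvm⟩ ⟨w, hw, hm', hwm⟩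
      have h1 : v = w := (Th hE U0 (n U)).injective (by rw [hvm, hwm])
      subst h1
      have h2 := Submodule.disjoint_def.1 hVW.disjoint _ hv hw
      rw [h2, map_zero, eq_comm, cls_eq_zero] at hvm
      rwa [hn] at hvm)
    (stX V eqV) (stY V eqV) (stX W eqW) (stY W eqW)
  have fin : ∀ V : Submodule κ (Gr hE U0), BB κ hE U0 V p = BB κ hE U0 V 0 →
      (∀ U, ∀ m ∈ BB κ hE U0 V (n U), m ∈ pm hE.yx U) → V = ⊥ := by
    intro V hcl h
    rw [Submodule.eq_bot_iff]
    intro v hv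
    obtain ⟨m, hm, rfl⟩ := cls_surj v
    rw [cls_eq_zero]
    apply h U0
    have h1 : BB κ hE U0 V (n U0) = BB κ hE U0 V 0 :=
      BB_eq_of_seq_eq' hcl (by rw [hn]; rfl)
    rw [h1]
    exact ⟨_, hv, hm, rfl⟩
  rcases hb with h | h
  · exact Or.inl (fin V closeV h)
  · exact Or.inr (fin W closeW h)

end Pool.Agent.Helper32.Nodal
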