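import Mathlib
import Pool.Agent.Helper32.Nodal.Main

namespace Pool.Agent.Helper32.Nodal

variable {E M : Type*} [Ring E] [AddCommGroup M] [Module E M]
variable {x y : M →ₗ[E] M} [IsArtinian E M] [IsNoetherian E M]

lemma gr_nontrivial (hE : Exact x y) (U : J x y) : Nontrivial (Gr hE U) := by
  obtain ⟨m, hm, hm'⟩ := SetLike.exists_of_lt (pm_lt hE.yx U)
  refine ⟨cls hE U m hm, 0, ?_⟩
  intro h
  exact hm' (cls_eq_zero.1 h)

lemma finite_of_gr (κ : Type*) [Field κ] [Algebra κ E] [Module κ M] [IsScalarTower κ E M]
    (hE : Exact x y) (h : ∀ U : J x y, Module.Finite κ (Gr hE U)) (U : Submodule E M) :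
    CC x y U → IsNoetherian κ (U.restrictScalars κ) := by
  induction U using WellFoundedLT.induction with
  | ind U ih =>
    intro hU
    by_cases hb : U = ⊥
    · subst hb
      have : Subsingleton ((⊥ : Submodule E M).restrictScalars κ) := by
        constructor
        rintro ⟨a, ha⟩ ⟨b, hb⟩
        have ha' : a = 0 := ha
        have hb' : b = 0 := hb
        exact Subtype.ext (ha'.trans hb'.symm)
      infer_instance
    · let U' : J x y := ⟨U, hU, hb⟩
      have h1 := ih (pm hE.yx U') (pm_lt hE.yx U') (pm_CC hE.yx U')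
      have h2 : IsNoetherian κ (Gr hE U') := by
        have := h U'
        infer_instance
      let f : (pm hE.yx U').restrictScalars κ →ₗ[κ] U.restrictScalars κ :=
        Submodule.inclusion (fun m hm => (pm_lt hE.yx U').le hm)
      let g : U.restrictScalars κ →ₗ[κ] Gr hE U' :=
        ((Submodule.mkQ ((pm hE.yx U').comap U'.1.subtype)).restrictScalars κ)
      refine isNoetherian_of_range_eq_ker f g ?_
      ext ⟨m, hm⟩
      constructor
      · rintro ⟨⟨n, hn⟩, hnm⟩
        have : n = m := congrArg Subtype.val hnm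
        subst this
        exact (cls_eq_zero (hE := hE) (U := U') (hm := hm)).2 hn
      · intro hg
        have hg' := (cls_eq_zero (hE := hE) (U := U') (hm := hm)).1 hg
        exact ⟨⟨m, hg'⟩, rfl⟩

/-- Nodal case: products of a fixed number of commutators of elements of `E` kill `M`. -/
theorem nodal_commutators (κ : Type*) [Field κ] [Algebra κ E] [Module κ M] [IsScalarTower κ E M]
    [Nontrivial M] (x y : M →ₗ[E] M)
    (hyx : ∀ m, y (x m) = 0) (hxy : ∀ m, x (y m) = 0)
    (hind : ∀ P Q : Submodule κ M, IsCompl P Q → (∀ m ∈ P, x m ∈ P) → (∀ m ∈ P, y m ∈ P) →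
      (∀ m ∈ Q, x m ∈ Q) → (∀ m ∈ Q, y m ∈ Q) → P = ⊥ ∨ Q = ⊥)
    (hinf : ¬ Module.Finite κ M) :
    ∃ r : ℕ, ∀ l : List (E × E), l.length = r → ∀ m : M,
      (l.map (fun p => p.1 * p.2 - p.2 * p.1)).prod • m = 0 := by
  classical
  have h1 := ker_le_range (κ := κ) hyx hxy hind hinf
  have h2 := ker_le_range (κ := κ) hxy hyx
    (fun P Q h a b c d => hind P Q h b a d c) hinf
  have hE : Exact x y := ⟨hyx, hxy, fun m hm => h1 hm, fun m hm => h2 hm⟩
  let U0 : J x y := ⟨⊤, CC.top, top_ne_bot⟩
  have : Nontrivial (Gr hE U0) := gr_nontrivial hE U0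
  obtain ⟨T, hT⟩ := exists_return hE U0
  have hTind := return_indec κ hE hind U0 T hT
  have horb := single_orbit κ hE hind U0
  rcases comm_or_finite (κ := κ) (V := Gr hE U0) T.toLinearMap hTind with hfin | hcomm
  · exfalso
    apply hinf
    have hall : ∀ U : J x y, Module.Finite κ (Gr hE U) := by
      intro U
      obtain ⟨n, rfl⟩ := horb U
      exact Module.Finite.equiv ((Th hE U0 n).restrictScalars κ)
    have h3 := finite_of_gr κ hE hall ⊤ CC.top
    have h4 : IsNoetherian κ (⊤ : Submodule κ M) := h3
    exact Module.Finite.equiv (Submodule.topEquiv (R := κ) (M := M))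
  · have hcomm' : ∀ (U : J x y) (a b : E), ∀ m ∈ U.1, (a * b - b * a) • m ∈ pm hE.yx U := by
      intro U a b m hm
      obtain ⟨n, rfl⟩ := horb U
      obtain ⟨v, hv⟩ := (Th hE U0 n).surjective (cls hE _ m hm)
      have h5 := congrArg (Th hE U0 n) (hcomm a b v)
      rw [map_smul, map_smul, map_smul, map_smul, hv, cls_smul, cls_smul, cls_smul, cls_smul,
        cls_eq_iff] at h5
      rw [sub_smul, mul_smul, mul_smul]
      exact h5
    have key : ∀ U : Submodule E M, CC x y U → ∃ r : ℕ, ∀ l : List (E × E), l.length = r →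
        ∀ m ∈ U, (l.map (fun p => p.1 * p.2 - p.2 * p.1)).prod • m = 0 := by
      intro U
      induction U using WellFoundedLT.induction with
      | ind U ih =>
        intro hU
        by_cases hb : U = ⊥
        · subst hb
          refine ⟨0, fun l _ m hm => ?_⟩
          have hm' : m = 0 := hm
          rw [hm', smul_zero]
        · let U' : J x y := ⟨U, hU, hb⟩
          obtain ⟨r, hr⟩ := ih (pm hE.yx U') (pm_lt hE.yx U') (pm_CC hE.yx U')
          refine ⟨r + 1, fun l hl m hm => ?_⟩
          rcases List.eq_nil_or_concat l with rfl | ⟨l', p, rfl⟩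
          · simp at hl
          · have hl' : l'.length = r := by simpa using hl
            rw [List.concat_eq_append, List.map_append, List.prod_append, mul_smul]
            apply hr l' hl'
            simp only [List.map_cons, List.map_nil, List.prod_cons, List.prod_nil, mul_one]
            exact hcomm' U' p.1 p.2 m hm
    obtain ⟨r, hr⟩ := key ⊤ CC.top
    exact ⟨r, fun l hl m => hr l hl m trivial⟩

end Pool.Agent.Helper32.Nodal
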